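import Pool.Agent.Lib.MP_d59f30_al.Word

/-!
The key estimate: a path from the `a`-axis to the `t`-axis that stays far from the identity
spends a long time between consecutive `t`-walls.
-/

set_option autoImplicit false

namespace Pool.Agent.Lib.MP_d59f30_al

open Classical

/-- Wall count along the `t`-axis. -/
noncomputable def DD : GG → ℤ := exists_D.choose
/-- Wall count along the `s`-axis. -/
noncomputable def EE : GG → ℤ := exists_E.choose
/-- Flat coordinate. -/
noncomputable def kap : GG → ℤ := exists_kappa.choose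
/-- Projection to the vertex group. -/
noncomputable def prj : GG → GG := exists_proj.choose
/-- Base point of the attaching line. -/
noncomputable def bas : GG → GG := exists_proj.choose_spec.choose
/-- Type of the attaching line. -/
noncomputable def typ : GG → Bool := exists_proj.choose_spec.choose_spec.choose

theorem DD_a (g : GG) : DD (g * ga) = DD g := exists_D.choose_spec.1 g
theorem DD_b (g : GG) : DD (g * gb) = DD g := exists_D.choose_spec.2.1 g
theorem DD_t (g : GG) : DD (g * gt) = DD g ∨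
    (DD (g * gt) = DD g + 1 ∧ ∃ p : ℤ, g = gt ^ (DD g) * ga ^ p) := exists_D.choose_spec.2.2.1 g
theorem DD_val (i p : ℤ) : DD (gt ^ i * ga ^ p) = i := exists_D.choose_spec.2.2.2 i p

theorem EE_a (g : GG) : EE (g * ga) = EE g := exists_E.choose_spec.1 g
theorem EE_b (g : GG) : EE (g * gb) = EE g := exists_E.choose_spec.2.1 g
theorem EE_t (g : GG) : EE (g * gt) = EE g := exists_E.choose_spec.2.2.1 g
theorem EE_s (g : GG) : EE (g * gs) = EE g ∨
    (EE (g * gs) = EE g + 1 ∧ ∃ p : ℤ, g = gs ^ (EE g) * ga ^ p) := exists_E.choose_spec.2.2.2.1 g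
theorem EE_val (i p : ℤ) : EE (gs ^ i * ga ^ p) = i := exists_E.choose_spec.2.2.2.2 i p

theorem kap_a (g : GG) : |kap (g * ga) - kap g| ≤ 1 := exists_kappa.choose_spec.1 g
theorem kap_b (g : GG) : |kap (g * gb) - kap g| ≤ 1 := exists_kappa.choose_spec.2.1 g
theorem kap_t (g : GG) : |kap (g * gt) - kap g| ≤ 1 := exists_kappa.choose_spec.2.2.1 g
theorem kap_val (p q : ℤ) : kap (ga ^ p * gb ^ q) = q := exists_kappa.choose_spec.2.2.2 p q

theorem prj_in (g : GG) (h : InN g) : prj g = g :=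
  exists_proj.choose_spec.choose_spec.choose_spec.1 g h
theorem prj_out (g : GG) (h : ¬ InN g) : prj g = bas g * (if typ g then ga else gt) ^ ht g :=
  exists_proj.choose_spec.choose_spec.choose_spec.2.1 g h
theorem bas_gen (g x : GG) (hx : IsGen x) (h1 : ¬ InN g) (h2 : ¬ InN (g * x)) :
    bas (g * x) = bas g ∧ typ (g * x) = typ g :=
  exists_proj.choose_spec.choose_spec.choose_spec.2.2.1 g x hx h1 h2
theorem prj_exit (g : GG) (h : InN g) : ¬ InN (g * gs) ∧ prj (g * gs) = g ∧ typ (g * gs) = true :=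
  exists_proj.choose_spec.choose_spec.choose_spec.2.2.2.1 g h
theorem prj_enter (g : GG) (h : InN (g * gs)) : prj g = g * gs ∧ typ g = false :=
  exists_proj.choose_spec.choose_spec.choose_spec.2.2.2.2 g h

/-- A lazy step by one of `a, b, t`. -/
def StepN (g h : GG) : Prop := h = g ∨ ∃ x, (x = ga ∨ x = gb ∨ x = gt) ∧ (h = g * x ∨ g = h * x)

theorem StepN.symm {g h : GG} (e : StepN g h) : StepN h g := by
  rcases e with e | ⟨x, hx, e⟩
  · exact Or.inl e.symm
  · exact Or.inr ⟨x, hx, e.symm⟩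

theorem StepN.step {g h : GG} (e : StepN g h) : Step g h := by
  rcases e with e | ⟨x, hx, e⟩
  · exact Or.inl e
  · refine Or.inr ⟨x, ?_, e⟩
    rcases hx with h | h | h
    · exact Or.inl h
    · exact Or.inr (Or.inl h)
    · exact Or.inr (Or.inr (Or.inl h))

theorem prj_gen (g x : GG) (hx : IsGen x) : StepN (prj g) (prj (g * x)) := by
  by_cases h1 : InN g
  · rcases hx with rfl | rfl | rfl | rfl
    · rw [prj_in g h1, prj_in _ ((InN_ga g).2 h1)]
      exact Or.inr ⟨_, Or.inl rfl, Or.inl rfl⟩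
    · rw [prj_in g h1, prj_in _ ((InN_gb g).2 h1)]
      exact Or.inr ⟨_, Or.inr (Or.inl rfl), Or.inl rfl⟩
    · rw [prj_in g h1, prj_in _ ((InN_gt g).2 h1)]
      exact Or.inr ⟨_, Or.inr (Or.inr rfl), Or.inl rfl⟩
    · rw [prj_in g h1, (prj_exit g h1).2.1]; exact Or.inl rfl
  · by_cases h2 : InN (g * x)
    · rcases hx with rfl | rfl | rfl | rfl
      · exact absurd ((InN_ga g).1 h2) h1
      · exact absurd ((InN_gb g).1 h2) h1
      · exact absurd ((InN_gt g).1 h2) h1
      · rw [(prj_enter g h2).1, prj_in _ h2]; exact Or.inl rfl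
    · obtain ⟨e1, e2⟩ := bas_gen g x hx h1 h2
      rw [prj_out g h1, prj_out _ h2, e1, e2, ht_mul]
      have hx' : ht x = 1 ∨ ht x = 0 := by
        rcases hx with rfl | rfl | rfl | rfl
        exacts [Or.inl rfl, Or.inl rfl, Or.inl rfl, Or.inr rfl]
      rcases hx' with e | e
      · rw [e, zpow_add_one, ← mul_assoc]
        refine Or.inr ⟨_, ?_, Or.inl rfl⟩
        split_ifs
        exacts [Or.inl rfl, Or.inr (Or.inr rfl)]
      · rw [e, add_zero]; exact Or.inl rfl

theorem prj_step {g h : GG} (e : Step g h) : StepN (prj g) (prj h) := by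
  rcases e with e | ⟨x, hx, e | e⟩
  · rw [e]; exact Or.inl rfl
  · rw [e]; exact prj_gen g x hx
  · rw [e]; exact (prj_gen h x hx).symm

theorem prj_lip (g h : GG) : d (prj g) (prj h) ≤ d g h :=
  map_lip (fun _ _ e => (prj_step e).step) g h

theorem bas_step {g h : GG} (e : Step g h) (h1 : ¬ InN g) (h2 : ¬ InN h) :
    bas h = bas g ∧ typ h = typ g := by
  rcases e with e | ⟨x, hx, e | e⟩
  · rw [e]; exact ⟨rfl, rfl⟩
  · subst e; exact bas_gen g x hx h1 h2
  · subst e
    obtain ⟨e1, e2⟩ := bas_gen h x hx h2 h1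
    exact ⟨e1.symm, e2.symm⟩

theorem prj_cross {g h : GG} (e : Step g h) (h1 : InN g) (h2 : ¬ InN h) : prj h = g := by
  rcases e with e | ⟨x, hx, e | e⟩
  · exact absurd (e ▸ h1) h2
  · subst e
    rcases hx with rfl | rfl | rfl | rfl
    · exact absurd ((InN_ga g).2 h1) h2
    · exact absurd ((InN_gb g).2 h1) h2
    · exact absurd ((InN_gt g).2 h1) h2
    · exact (prj_exit g h1).2.1
  · subst e
    rcases hx with rfl | rfl | rfl | rfl
    · exact absurd ((InN_ga h).1 h1) h2
    · exact absurd ((InN_gb h).1 h1) h2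
    · exact absurd ((InN_gt h).1 h1) h2
    · exact (prj_enter h h1).1

theorem kap_lip (u g h : GG) : |kap (u * prj h) - kap (u * prj g)| ≤ d g h := by
  refine lip_of_step (f := fun g => kap (u * prj g)) (fun g h e => ?_) g h
  rcases prj_step e with e | ⟨x, hx, e | e⟩
  · simp [e]
  · simp only [e, ← mul_assoc]
    rcases hx with rfl | rfl | rfl
    exacts [kap_a _, kap_b _, kap_t _]
  · simp only [e, ← mul_assoc]
    rw [abs_sub_comm]
    rcases hx with rfl | rfl | rfl
    exacts [kap_a _, kap_b _, kap_t _]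

theorem InN_gb_zpow (g : GG) (k : ℤ) : InN (g * gb ^ k) ↔ InN g := by
  induction k with
  | zero => simp
  | succ i ih => rw [zpow_add_one, ← mul_assoc, InN_gb, ih]
  | pred i ih => rw [← ih, ← InN_gb, mul_assoc, ← zpow_add_one, sub_add_cancel]

theorem InN_gt_zpow (g : GG) (k : ℤ) : InN (g * gt ^ k) ↔ InN g := by
  induction k with
  | zero => simp
  | succ i ih => rw [zpow_add_one, ← mul_assoc, InN_gt, ih]
  | pred i ih => rw [← ih, ← InN_gt, mul_assoc, ← zpow_add_one, sub_add_cancel]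

theorem flat_lower (p q : ℤ) : |q| ≤ d 1 (ga ^ p * gb ^ q) := by
  have := kap_lip 1 1 (ga ^ p * gb ^ q)
  rw [prj_in _ InN_one, prj_in _ ((InN_gb_zpow _ _).2 (InN_ga_zpow p)), one_mul, one_mul,
    kap_val] at this
  have h0 : kap 1 = 0 := by simpa using kap_val 0 0
  simpa [h0] using this

theorem DD_stepN {y y' : GG} (e : StepN y y') : DD y' = DD y ∨
    (DD y' = DD y + 1 ∧ ∃ p : ℤ, y = gt ^ (DD y) * ga ^ p ∧ y' = gt ^ (DD y + 1) * gb ^ p) ∨
    (DD y = DD y' + 1 ∧ ∃ p : ℤ, y' = gt ^ (DD y') * ga ^ p ∧ y = gt ^ (DD y' + 1) * gb ^ p) := by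
  have key : ∀ g : GG, ∀ i p : ℤ, g = gt ^ i * ga ^ p → g * gt = gt ^ (i + 1) * gb ^ p := by
    rintro g i p rfl
    rw [mul_assoc, rel_at_zpow, zpow_add_one, mul_assoc]
  rcases e with e | ⟨x, hx, e | e⟩
  · left; rw [e]
  · subst e
    rcases hx with rfl | rfl | rfl
    · exact Or.inl (DD_a y)
    · exact Or.inl (DD_b y)
    · rcases DD_t y with h | ⟨h, p, hp⟩
      · exact Or.inl h
      · exact Or.inr (Or.inl ⟨h, p, hp, key _ _ _ hp⟩)
  · subst e
    rcases hx with rfl | rfl | rfl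
    · exact Or.inl (DD_a y').symm
    · exact Or.inl (DD_b y').symm
    · rcases DD_t y' with h | ⟨h, p, hp⟩
      · exact Or.inl h.symm
      · exact Or.inr (Or.inr ⟨h, p, hp, key _ _ _ hp⟩)

theorem EE_step {g h : GG} (e : Step g h) : EE h = EE g ∨ EE h = EE g + 1 ∨
    (EE g = EE h + 1 ∧ ∃ p : ℤ, h = gs ^ (EE h) * ga ^ p ∧ g = gs ^ (EE h + 1) * gt ^ p) := by
  rcases e with e | ⟨x, hx, e | e⟩
  · left; rw [e]
  · subst e
    rcases hx with rfl | rfl | rfl | rfl
    · exact Or.inl (EE_a g)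
    · exact Or.inl (EE_b g)
    · exact Or.inl (EE_t g)
    · rcases EE_s g with h | ⟨h, _⟩
      · exact Or.inl h
      · exact Or.inr (Or.inl h)
  · subst e
    rcases hx with rfl | rfl | rfl | rfl
    · exact Or.inl (EE_a h).symm
    · exact Or.inl (EE_b h).symm
    · exact Or.inl (EE_t h).symm
    · rcases EE_s h with e | ⟨e, p, hp⟩
      · exact Or.inl e.symm
      · refine Or.inr (Or.inr ⟨e, p, hp, ?_⟩)
        conv_lhs => rw [hp]
        rw [mul_assoc, rel_as_zpow, zpow_add_one, mul_assoc]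

theorem DD_ga_zpow (g : GG) (k : ℤ) : DD (g * ga ^ k) = DD g := by
  induction k with
  | zero => simp
  | succ i ih => rw [zpow_add_one, ← mul_assoc, DD_a, ih]
  | pred i ih => rw [← ih, ← DD_a, mul_assoc, ← zpow_add_one, sub_add_cancel]

/-- The component attached along the `t`-axis. -/
def Beyond (g : GG) : Prop := ¬ InN g ∧ typ g = false ∧ ∃ i : ℤ, bas g = gt ^ i

theorem window {p : ℕ → GG} (hp : ∀ j, Step (p j) (p (j + 1))) (lo hi : ℕ)
    (hB : ∀ j, lo ≤ j → j ≤ hi → ¬ Beyond (p j)) (i q r : ℤ) (u u' v : ℕ)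
    (hu : lo ≤ u ∧ u ≤ hi) (hu' : lo ≤ u' ∧ u' ≤ hi) (hv : lo ≤ v ∧ v ≤ hi)
    (e1 : prj (p u) = gt ^ i * gb ^ q) (e2 : prj (p u') = gt ^ (i - 1) * ga ^ q)
    (e3 : prj (p v) = gt ^ i * ga ^ r) :
    ∃ e, lo ≤ e ∧ e ≤ hi ∧ d 1 (p e) ≤ i.natAbs + 2 * (hi - lo) := by
  have hq : q.natAbs ≤ hi - lo := by
    have h1 := kap_lip (gt ^ i)⁻¹ (p v) (p u)
    rw [e1, e3, inv_mul_cancel_left, inv_mul_cancel_left] at h1
    have a1 : kap (gb ^ q) = q := by simpa using kap_val 0 q
    have a2 : kap (ga ^ r) = 0 := by simpa using kap_val r 0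
    rw [a1, a2, sub_zero] at h1
    have h2 := d_path_le hp hv.1 hv.2 hu.1 hu.2
    rw [← Int.natCast_natAbs] at h1
    omega
  have hex : ∃ e, lo ≤ e ∧ e ≤ hi ∧ InN (p e) := by
    by_contra hcon
    push Not at hcon
    have hsame : ∀ k, lo + k ≤ hi → bas (p (lo + k)) = bas (p lo) ∧ typ (p (lo + k)) = typ (p lo) := by
      intro k
      induction k with
      | zero => intro _; exact ⟨rfl, rfl⟩
      | succ k ih =>
        intro hk
        obtain ⟨a1, a2⟩ := ih (by omega)
        obtain ⟨b1, b2⟩ := bas_step (hp (lo + k)) (hcon _ (by omega) (by omega))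
          (hcon _ (by omega) (by omega))
        exact ⟨b1.trans a1, b2.trans a2⟩
    have hs : ∀ j, lo ≤ j ∧ j ≤ hi → prj (p j) =
        bas (p lo) * (if typ (p lo) then ga else gt) ^ ht (p j) := by
      intro j hj
      obtain ⟨k, rfl⟩ := Nat.exists_eq_add_of_le hj.1
      obtain ⟨a1, a2⟩ := hsame k hj.2
      rw [prj_out _ (hcon _ hj.1 hj.2), a1, a2]
    have f2 := hs u' hu'
    have f3 := hs v hv
    rw [e2] at f2
    rw [e3] at f3
    cases hty : typ (p lo) with
    | true =>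
      rw [hty, if_pos rfl] at f2 f3
      have g2 := congrArg DD f2
      have g3 := congrArg DD f3
      rw [DD_val, DD_ga_zpow] at g2 g3
      omega
    | false =>
      rw [hty, if_neg (by simp)] at f2 f3
      have hb : bas (p lo) = gt ^ (i - 1) * ga ^ q * (gt ^ ht (p u'))⁻¹ := by
        rw [f2, mul_inv_cancel_right]
      have hq0 : q = 0 := by
        apply rigid (n := ht (p v) - ht (p u')) (p := r)
        rw [hb] at f3
        have : gt * ga ^ r = (gt ^ (i - 1))⁻¹ * (gt ^ i * ga ^ r) := by group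
        rw [this, f3]; group
      refine hB lo le_rfl (by omega) ⟨hcon lo le_rfl (by omega), hty, i - 1 - ht (p u'), ?_⟩
      rw [hb, hq0]; group
  obtain ⟨e, h1, h2, h3⟩ := hex
  refine ⟨e, h1, h2, ?_⟩
  have a1 := prj_lip (p u) (p e)
  rw [prj_in _ h3, e1] at a1
  have a2 := d_path_le hp hu.1 hu.2 h1 h2
  have a3 := d_triangle 1 (gt ^ i * gb ^ q) (p e)
  have a4 := d_triangle 1 (gt ^ i) (gt ^ i * gb ^ q)
  have a5 := d_zpow_le 1 gen_t i
  rw [one_mul] at a5
  have a6 := d_zpow_le (gt ^ i) gen_b q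
  omega

theorem first_time (f : ℕ → ℤ) (hf : ∀ j, f (j + 1) ≤ f j + 1) (c : ℤ) (h0 : f 0 < c)
    (T : ℕ) (hT : c ≤ f T) : ∃ u, u < T ∧ f u = c - 1 ∧ f (u + 1) = c ∧ ∀ j, j ≤ u → f j < c := by
  have hex : ∃ j, c ≤ f j := ⟨T, hT⟩
  have h1 := Nat.find_spec hex
  have h2 : Nat.find hex ≤ T := Nat.find_min' hex hT
  have h3 : ∀ j, j < Nat.find hex → f j < c := fun j hj => not_le.1 (Nat.find_min hex hj)
  rcases hN : Nat.find hex with _ | u
  · rw [hN] at h1; omega
  · rw [hN] at h1 h2 h3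
    have := h3 u (by omega)
    have := hf u
    exact ⟨u, by omega, by omega, by omega, fun j hj => h3 j (by omega)⟩

theorem core {p : ℕ → GG} (hp : ∀ j, Step (p j) (p (j + 1))) (T : ℕ) (k m : ℤ)
    (h0 : p 0 = ga ^ k) (hT : p T = gt ^ m) (hne : ∀ j, j < T → ∀ i : ℤ, p j ≠ gt ^ i)
    (K I : ℕ) (hI : I ≤ m.natAbs)
    (hfar : ∀ e, e ≤ T → ∀ i : ℕ, 1 ≤ i → i < I → K * (i - 1) ≤ e + 1 →
      i + 2 * K + 2 ≤ d 1 (p e)) : K * (I - 1) ≤ T := by
  have hB : ∀ j, j ≤ T → ¬ Beyond (p j) := by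
    intro j
    induction j with
    | zero => intro _ h; exact h.1 (h0 ▸ InN_ga_zpow k)
    | succ j ih =>
      rintro hj ⟨h1, h2, i, h3⟩
      by_cases h4 : InN (p j)
      · have := prj_cross (hp j) h4 h1
        rw [prj_out _ h1, h2, h3, if_neg (by simp), ← zpow_add] at this
        exact hne j (by omega) _ this.symm
      · obtain ⟨a1, a2⟩ := bas_step (hp j) h4 h1
        exact ih (by omega) ⟨h4, a2 ▸ h2, i, a1 ▸ h3⟩
  obtain ⟨σ, hσ, hσm⟩ : ∃ σ : ℤ, (σ = 1 ∨ σ = -1) ∧ σ * m = m.natAbs := by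
    rcases le_total 0 m with h | h
    · exact ⟨1, Or.inl rfl, by omega⟩
    · exact ⟨-1, Or.inr rfl, by omega⟩
  let f : ℕ → ℤ := fun j => σ * DD (prj (p j))
  have hf : ∀ j, f (j + 1) ≤ f j + 1 := by
    intro j
    simp only [f]
    rcases DD_stepN (prj_step (hp j)) with h | ⟨h, _⟩ | ⟨h, _⟩ <;> rcases hσ with rfl | rfl <;>
      omega
  have hf0 : f 0 = 0 := by
    have : DD (ga ^ k) = 0 := by simpa using DD_val 0 k
    simp only [f, h0, prj_in _ (InN_ga_zpow k), this, mul_zero]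
  have hfT : f T = m.natAbs := by
    have h1 : DD (gt ^ m) = m := by simpa using DD_val m 0
    have h2 : InN (gt ^ m) := by simpa using (InN_gt_zpow 1 m).2 InN_one
    simp only [f, hT, prj_in _ h2, h1, hσm]
  have claim : ∀ i : ℕ, 1 ≤ i → i ≤ I → ∀ j, j ≤ T → (i : ℤ) ≤ f j → K * (i - 1) ≤ j := by
    intro i hi
    induction i, hi using Nat.le_induction with
    | base => intro _ j _ _; simp
    | succ i hi ih =>
      intro hiI j hj hfj
      push_cast at hfj
      obtain ⟨v, hv1, hv2, hv3, hv4⟩ := first_time f hf (i + 1) (by omega) j hfj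
      obtain ⟨u, hu1, hu2, hu3, hu4⟩ := first_time f hf i (by omega) v (by omega)
      have h1 := ih (by omega) (u + 1) (by omega) (by omega)
      have hwin : ∃ e, u ≤ e ∧ e ≤ v + 1 ∧ d 1 (p e) ≤ i + 2 * (v + 1 - u) := by
        have hB' : ∀ j', u ≤ j' → j' ≤ v + 1 → ¬ Beyond (p j') := fun j' _ h => hB j' (by omega)
        simp only [f] at hv2 hv3 hu2 hu3
        rcases hσ with rfl | rfl
        · rcases DD_stepN (prj_step (hp u)) with h | ⟨_, q, a1, a2⟩ | ⟨h, _⟩
          · omega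
          · rcases DD_stepN (prj_step (hp v)) with h | ⟨_, r, b1, _⟩ | ⟨h, _⟩
            · omega
            · have := window hp u (v + 1) hB' i q r (u + 1) u v (by omega) (by omega) (by omega)
                (by rw [a2]; congr 2; omega) (by rw [a1]; congr 2; omega)
                (by rw [b1]; congr 2; omega)
              simpa using this
            · omega
          · omega
        · rcases DD_stepN (prj_step (hp u)) with h | ⟨h, _⟩ | ⟨_, r, a1, _⟩
          · omega
          · omega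
          · rcases DD_stepN (prj_step (hp v)) with h | ⟨h, _⟩ | ⟨_, q, b1, b2⟩
            · omega
            · omega
            · have := window hp u (v + 1) hB' (-i) q r v (v + 1) (u + 1) (by omega) (by omega)
                (by omega) (by rw [b2]; congr 2; omega) (by rw [b1]; congr 2; omega)
                (by rw [a1]; congr 2; omega)
              simpa using this
      obtain ⟨e, he1, he2, he3⟩ := hwin
      have h2 := hfar e (by omega) i hi (by omega) (by omega)
      have h3 : K * (i + 1 - 1) = K * (i - 1) + K := by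
        obtain ⟨i', rfl⟩ := Nat.exists_eq_add_of_le' hi
        simp [mul_add]
      omega
  rcases Nat.eq_zero_or_pos I with rfl | hI0
  · simp
  · exact claim I hI0 le_rfl T le_rfl (by omega)

theorem exists_first_t {p : ℕ → GG} {T : ℕ} {m : ℤ} (hT : p T = gt ^ m) :
    ∃ T' m', T' ≤ T ∧ p T' = gt ^ (m' : ℤ) ∧ ∀ j, j < T' → ∀ i : ℤ, p j ≠ gt ^ i := by
  have hex : ∃ j, ∃ i : ℤ, p j = gt ^ i := ⟨T, m, hT⟩
  obtain ⟨m', hm'⟩ := Nat.find_spec hex
  exact ⟨Nat.find hex, m', Nat.find_min' hex ⟨m, hT⟩, hm',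
    fun j hj i hi => Nat.find_min hex hj ⟨i, hi⟩⟩

theorem quadratic {p : ℕ → GG} (hp : ∀ j, Step (p j) (p (j + 1))) (T : ℕ) (k m : ℤ)
    (h0 : p 0 = ga ^ k) (hT : p T = gt ^ m) (R : ℕ) (hfar : ∀ e, e ≤ T → 3 * R + 2 ≤ d 1 (p e)) :
    R * (R - 1) ≤ T := by
  obtain ⟨T', m', h1, h2, h3⟩ := exists_first_t hT
  have h4 := hfar T' h1
  have h5 := d_zpow_le 1 gen_t m'
  rw [one_mul, ← h2] at h5
  refine (core hp T' k m' h0 h2 h3 R R (by omega) (fun e he i _ hi _ => ?_)).trans h1
  have := hfar e (by omega)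
  omega

theorem cubic {p : ℕ → GG} (hp : ∀ j, Step (p j) (p (j + 1))) (T R : ℕ)
    (h0 : (R : ℤ) + 1 ≤ EE (p 0)) (hT : EE (p T) ≤ 0)
    (hfar : ∀ e, e ≤ T → 4 * R + 2 ≤ d 1 (p e)) : R * (R * (R - 1)) ≤ T := by
  let f : ℕ → ℤ := fun j => - EE (p j)
  have hf : ∀ j, f (j + 1) ≤ f j + 1 := by
    intro j
    simp only [f]
    rcases EE_step (hp j) with h | h | ⟨h, _⟩ <;> omega
  have claim : ∀ i : ℕ, i ≤ R → ∀ j, j ≤ T → (i : ℤ) - R ≤ f j → i * (R * (R - 1)) ≤ j := by
    intro i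
    induction i with
    | zero => intro _ j _ _; simp
    | succ i ih =>
      intro hi j hj hfj
      push_cast at hfj
      have hf0 : f 0 ≤ - R - 1 := by simp only [f]; omega
      obtain ⟨v, hv1, hv2, hv3, hv4⟩ := first_time f hf (i + 1 - R) (by omega) j hfj
      obtain ⟨u, hu1, hu2, hu3, hu4⟩ := first_time f hf (i - R) (by omega) v (by omega)
      have h1 := ih (by omega) (u + 1) (by omega) (by omega)
      simp only [f] at hv2 hv3 hu2 hu3
      rcases EE_step (hp u) with h | h | ⟨_, q, a1, _⟩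
      · omega
      · omega
      rcases EE_step (hp v) with h | h | ⟨_, r, _, b2⟩
      · omega
      · omega
      have c1 : EE (p (u + 1)) = ((R - i : ℕ) : ℤ) := by omega
      have c2 : EE (p (v + 1)) + 1 = ((R - i : ℕ) : ℤ) := by omega
      rw [c1] at a1
      rw [c2] at b2
      set w := gs ^ (((R - i : ℕ) : ℤ)) with hw
      have hq := quadratic (p := fun e => w⁻¹ * p (u + 1 + e))
        (fun e => (hp (u + 1 + e)).left _) (v - (u + 1)) q r
        (by simp only [add_zero]; rw [a1, inv_mul_cancel_left])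
        (by rw [show u + 1 + (v - (u + 1)) = v by omega, b2, inv_mul_cancel_left]) R
        (by
          intro e he
          have d1 := hfar (u + 1 + e) (by omega)
          have d2 := d_triangle 1 w (p (u + 1 + e))
          have d3 := d_zpow_le 1 gen_s ((R - i : ℕ) : ℤ)
          rw [one_mul, ← hw, Int.natAbs_natCast] at d3
          rw [← d_eq_one_left]
          omega)
      rw [add_mul, one_mul]
      omega
  exact claim R le_rfl T le_rfl (by simp only [f]; omega)

theorem no_catch {p : ℕ → GG} (hp : ∀ j, Step (p j) (p (j + 1))) (T : ℕ) (k : ℤ)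
    (h0 : p 0 = ga ^ k) (hT : EE (p T) ≤ -1) (C A : ℕ) (hA : C * (4 * C + 3) + 1 ≤ A)
    (hfar : ∀ e, e + A ≤ C * d 1 (p e)) : False := by
  let f : ℕ → ℤ := fun j => - EE (p j)
  have hf : ∀ j, f (j + 1) ≤ f j + 1 := by
    intro j
    simp only [f]
    rcases EE_step (hp j) with h | h | ⟨h, _⟩ <;> omega
  have hf0 : f 0 = 0 := by
    have : EE (ga ^ k) = 0 := by simpa using EE_val 0 k
    simp only [f, h0, this, neg_zero]
  obtain ⟨v, _, hv2, hv3, _⟩ := first_time f hf 1 (by omega) T (by simp only [f]; omega)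
  simp only [f] at hv2 hv3
  rcases EE_step (hp v) with h | h | ⟨_, r, _, b2⟩
  · omega
  · omega
  rw [show EE (p (v + 1)) + 1 = 0 by omega, zpow_zero, one_mul] at b2
  obtain ⟨T', m, _, h2, h3⟩ := exists_first_t b2
  have hC : 0 < C := by
    rcases Nat.eq_zero_or_pos C with rfl | h
    · have := hfar 0; omega
    · exact h
  have h4 := core hp T' k m h0 h2 h3 (2 * C) m.natAbs le_rfl (by
    intro e _ i hi _ hK
    have := hfar e
    obtain ⟨i', rfl⟩ := Nat.exists_eq_add_of_le' hi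
    rw [Nat.add_sub_cancel] at hK
    apply Nat.le_of_mul_le_mul_left _ hC
    nlinarith)
  have h5 := d_zpow_le 1 gen_t m
  rw [one_mul, ← h2] at h5
  have h6 := hfar T'
  have h7 : C * d 1 (p T') ≤ C * m.natAbs := Nat.mul_le_mul_left _ h5
  rcases hm : m.natAbs with _ | n
  · rw [hm] at h7; omega
  · rw [hm] at h4 h7
    rw [Nat.add_sub_cancel] at h4
    nlinarith

end Pool.Agent.Lib.MP_d59f30_al
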