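import Mathlib

/-!
Definitions: the metric Cayley graph, divergence, quasi-redirection and the QR-poset.
-/

set_option autoImplicit false

namespace Pool.Agent.Lib.MP_d59f30_al

open scoped NNReal ENNReal

section Cayley

variable {G : Type} [Group G]

/-- The word metric of the generating set `S`: graph distance in the Cayley graph. -/
noncomputable def wordDist (S : Finset G) (g h : G) : ℝ :=
  ((SimpleGraph.mulCayley (S : Set G)).dist g h : ℝ)

/-- The triple `(g, x, τ)` names the point at distance `τ` from `g` on the edge from `g`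
to `g * x`. -/
def EdgePoint (S : Finset G) (_ : Subgroup.closure (S : Set G) = ⊤) : Type :=
  G × S × unitInterval

/-- Length of the shortest route from `p` to `q` that leaves the edge of `p` through one of its
ends and enters the edge of `q` through one of its ends. -/
noncomputable def viaEnds (S : Finset G) (p q : G × S × unitInterval) : ℝ :=
  min (min (p.2.2 + wordDist S p.1 q.1 + q.2.2)
        (p.2.2 + wordDist S p.1 (q.1 * q.2.1) + (1 - q.2.2)))
      (min ((1 - p.2.2) + wordDist S (p.1 * p.2.1) q.1 + q.2.2)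
        ((1 - p.2.2) + wordDist S (p.1 * p.2.1) (q.1 * q.2.1) + (1 - q.2.2)))

open Classical in
/-- The path metric in which edges have length one. -/
noncomputable def edgeDist (S : Finset G) (p q : G × S × unitInterval) : ℝ :=
  if p.1 = q.1 ∧ p.2.1 = q.2.1 then min |(p.2.2 : ℝ) - q.2.2| (viaEnds S p q) else viaEnds S p q

theorem cayley_connected {S : Finset G} (hS : Subgroup.closure (S : Set G) = ⊤) :
    (SimpleGraph.mulCayley (S : Set G)).Connected := by
  have key : ∀ g ∈ Subgroup.closure (S : Set G), ∀ u,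
      (SimpleGraph.mulCayley (S : Set G)).Reachable u (u * g) := by
    intro g hg
    induction hg using Subgroup.closure_induction with
    | mem x hx =>
      intro u
      by_cases h : u = u * x
      · rw [← h]
      · exact ((SimpleGraph.mulCayley_adj' _ _ _).2 ⟨h, x, hx, Or.inl rfl⟩).reachable
    | one => intro u; rw [mul_one]
    | mul x y _ _ hx hy => intro u; rw [← mul_assoc]; exact (hx u).trans (hy _)
    | inv x _ hx => intro u; simpa using (hx (u * x⁻¹)).symm
  exact ⟨fun u v => by simpa using key (u⁻¹ * v) (hS ▸ Subgroup.mem_top _) u⟩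

theorem wordDist_edge (S : Finset G) (g : G) (x : S) : wordDist S g (g * x) ≤ 1 := by
  unfold wordDist
  by_cases h : g = g * x
  · rw [← h]; simp
  · rw [SimpleGraph.dist_eq_one_iff_adj.2
      ((SimpleGraph.mulCayley_adj' _ _ _).2 ⟨h, x, x.2, Or.inl rfl⟩)]
    simp

theorem wordDist_comm (S : Finset G) (g h : G) : wordDist S g h = wordDist S h g := by
  unfold wordDist; rw [SimpleGraph.dist_comm]

theorem wordDist_triangle {S : Finset G} (hS : Subgroup.closure (S : Set G) = ⊤) (g h k : G) :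
    wordDist S g k ≤ wordDist S g h + wordDist S h k := by
  unfold wordDist; exact_mod_cast (cayley_connected hS).dist_triangle

theorem viaEnds_comm (S : Finset G) (p q : G × S × unitInterval) :
    viaEnds S p q = viaEnds S q p := by
  unfold viaEnds
  rw [min_min_min_comm, wordDist_comm S p.1 q.1, wordDist_comm S p.1 (q.1 * q.2.1),
    wordDist_comm S (p.1 * p.2.1) q.1, wordDist_comm S (p.1 * p.2.1) (q.1 * q.2.1)]
  congr 2 <;> ring

theorem viaEnds_triangle {S : Finset G} (hS : Subgroup.closure (S : Set G) = ⊤)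
    (p q r : G × S × unitInterval) : viaEnds S p r ≤ viaEnds S p q + viaEnds S q r := by
  have T := wordDist_triangle hS
  have e1 := wordDist_edge S q.1 q.2.1
  have e2 := (wordDist_comm S _ _).le.trans e1
  have h0 := q.2.2.2.1
  have h1 := q.2.2.2.2
  have key : ∀ u v : G, wordDist S u v ≤
      min (wordDist S u q.1 + q.2.2) (wordDist S u (q.1 * q.2.1) + (1 - q.2.2)) +
      min (q.2.2 + wordDist S q.1 v) ((1 - q.2.2) + wordDist S (q.1 * q.2.1) v) := by
    intro u v
    simp only [← min_add_add_right, ← min_add_add_left, le_min_iff]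
    refine ⟨⟨?_, ?_⟩, ?_, ?_⟩
    · linarith [T u q.1 v]
    · linarith [T u (q.1 * q.2.1) v, T (q.1 * q.2.1) q.1 v]
    · linarith [T u q.1 v, T q.1 (q.1 * q.2.1) v]
    · linarith [T u (q.1 * q.2.1) v]
  have k1 := key p.1 r.1
  have k2 := key p.1 (r.1 * r.2.1)
  have k3 := key (p.1 * p.2.1) r.1
  have k4 := key (p.1 * p.2.1) (r.1 * r.2.1)
  simp only [← min_add_add_right, ← min_add_add_left, le_min_iff] at k1 k2 k3 k4
  unfold viaEnds
  simp only [← min_add_add_right, ← min_add_add_left, le_min_iff, min_le_iff]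
  refine ⟨⟨⟨⟨?_, ?_⟩, ?_, ?_⟩, ⟨?_, ?_⟩, ?_, ?_⟩, ⟨⟨?_, ?_⟩, ?_, ?_⟩, ⟨?_, ?_⟩, ?_, ?_⟩ <;>
    first
    | (left; left; linarith [k1.1.1, k1.1.2, k1.2.1, k1.2.2])
    | (left; right; linarith [k2.1.1, k2.1.2, k2.2.1, k2.2.2])
    | (right; left; linarith [k3.1.1, k3.1.2, k3.2.1, k3.2.2])
    | (right; right; linarith [k4.1.1, k4.1.2, k4.2.1, k4.2.2])

theorem viaEnds_same (S : Finset G) (p q r : G × S × unitInterval)
    (h : p.1 = q.1 ∧ p.2.1 = q.2.1) : viaEnds S p r ≤ |(p.2.2 : ℝ) - q.2.2| + viaEnds S q r := by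
  have a1 := le_abs_self ((p.2.2 : ℝ) - q.2.2)
  have a2 := neg_abs_le ((p.2.2 : ℝ) - q.2.2)
  unfold viaEnds
  rw [h.1, h.2]
  simp only [← min_add_add_left, le_min_iff, min_le_iff]
  exact ⟨⟨Or.inl (Or.inl (by linarith)), Or.inl (Or.inr (by linarith))⟩,
    Or.inr (Or.inl (by linarith)), Or.inr (Or.inr (by linarith))⟩

noncomputable instance edgePointMetric (S : Finset G) (hS : Subgroup.closure (S : Set G) = ⊤) :
    PseudoMetricSpace (EdgePoint S hS) where
  dist := edgeDist S
  dist_self p := by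
    have h0 := p.2.2.2.1
    have h1 := sub_nonneg.2 p.2.2.2.2
    have : 0 ≤ viaEnds S p p := by unfold viaEnds wordDist; positivity
    simp [edgeDist, this]
  dist_comm p q := by
    show edgeDist S p q = edgeDist S q p
    unfold edgeDist
    rw [viaEnds_comm S p q, abs_sub_comm]
    by_cases h : p.1 = q.1 ∧ p.2.1 = q.2.1
    · rw [if_pos h, if_pos ⟨h.1.symm, h.2.symm⟩]
    · rw [if_neg h, if_neg (fun e => h ⟨e.1.symm, e.2.symm⟩)]
  dist_triangle p q r := by
    have t1 := viaEnds_triangle hS p q r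
    have t2 := viaEnds_same S p q r
    have t3 := viaEnds_same S r q p
    rw [viaEnds_comm S r p, viaEnds_comm S q p, abs_sub_comm] at t3
    have t4 := abs_sub_le (p.2.2 : ℝ) q.2.2 r.2.2
    have v : edgeDist S p r ≤ viaEnds S p r := by unfold edgeDist; split_ifs <;> simp
    show edgeDist S p r ≤ edgeDist S p q + edgeDist S q r
    by_cases h : p.1 = q.1 ∧ p.2.1 = q.2.1 <;> by_cases h' : q.1 = r.1 ∧ q.2.1 = r.2.1
    · have w : edgeDist S p r ≤ |(p.2.2 : ℝ) - r.2.2| := by
        rw [edgeDist, if_pos ⟨h.1.trans h'.1, h.2.trans h'.2⟩]; exact min_le_left _ _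
      rw [edgeDist.eq_1 S p q, edgeDist.eq_1 S q r, if_pos h, if_pos h']
      simp only [← min_add_add_right, ← min_add_add_left, le_min_iff]
      exact ⟨⟨by linarith, by linarith [t3 ⟨h'.1.symm, h'.2.symm⟩]⟩, by linarith [t2 h],
        by linarith⟩
    · rw [edgeDist.eq_1 S p q, edgeDist.eq_1 S q r, if_pos h, if_neg h']
      simp only [← min_add_add_right, le_min_iff]
      exact ⟨by linarith [t2 h], by linarith⟩
    · rw [edgeDist.eq_1 S p q, edgeDist.eq_1 S q r, if_neg h, if_pos h']
      simp only [← min_add_add_left, le_min_iff]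
      exact ⟨by linarith [t3 ⟨h'.1.symm, h'.2.symm⟩], by linarith⟩
    · rw [edgeDist.eq_1 S p q, edgeDist.eq_1 S q r, if_neg h, if_neg h']
      linarith

/-- The Cayley graph as a metric space: edge points at distance zero are identified. -/
abbrev CayleySpace (S : Finset G) (hS : Subgroup.closure (S : Set G) = ⊤) : Type :=
  SeparationQuotient (EdgePoint S hS)

end Cayley

section Metric

variable (X : Type) [MetricSpace X]

/-- Infimum of the lengths of the paths from `x` to `y` avoiding the open ball about `c`. -/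
noncomputable def divPoint (γ δ : ℝ) (x y c : X) : ℝ≥0∞ :=
  ⨅ (p : Path x y) (_ : ∀ t, p t ∉ Metric.ball c (δ * min (dist c x) (dist c y) - γ)),
    eVariationOn p Set.univ

/-- The divergence function. -/
noncomputable def divergence (γ δ : ℝ) (n : ℕ) : ℝ≥0∞ :=
  ⨆ (x : X) (y : X) (c : X) (_ : 0 < min (dist c x) (dist c y)) (_ : dist x y ≤ n),
    divPoint X γ δ x y c

/-- The comparison of growth functions. -/
def Dominated (f g : ℕ → ℝ≥0∞) : Prop :=
  ∃ C : ℕ, ∀ n : ℕ, f n ≤ C * g (C * n + C) + C * n + C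

variable {X}

/-- `(q, Q)`-quasi-geodesic rays. -/
def IsQuasiRay (q Q : ℝ) (α : ℝ≥0 → X) : Prop :=
  1 ≤ q ∧ 0 ≤ Q ∧ ∀ s t : ℝ≥0,
    |(s : ℝ) - t| / q - Q ≤ dist (α s) (α t) ∧ dist (α s) (α t) ≤ q * |(s : ℝ) - t| + Q

variable (X)

/-- Quasi-geodesic rays. -/
def QuasiRay : Type := {α : ℝ≥0 → X // ∃ q Q : ℝ, IsQuasiRay q Q α}

variable {X}

/-- `α` can be quasi-redirected to `β`. -/
def Redirects (α β : QuasiRay X) : Prop :=
  ∃ q Q : ℝ, ∀ r : ℝ, 0 < r → ∃ γ : ℝ≥0 → X, IsQuasiRay q Q γ ∧
    (∀ t, α.1 t ∈ Metric.ball (α.1 0) r → γ t = α.1 t) ∧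
    ∃ tβ tγ : ℝ≥0, 0 < tβ ∧ 0 < tγ ∧ ∀ t, tγ ≤ t → γ t = β.1 (t + tβ)

variable (X)

/-- The classes of rays under mutual quasi-redirection. -/
def QRPoset : Type := Quot (fun α β : QuasiRay X => Redirects α β ∧ Redirects β α)

/-- The order on classes. -/
def QRLe (A B : QRPoset X) : Prop :=
  ∃ α β : QuasiRay X, Quot.mk _ α = A ∧ Quot.mk _ β = B ∧ Redirects α β

end Metric

end Pool.Agent.Lib.MP_d59f30_al
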