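import Mathlib

/-!
The free-by-cyclic group with generators `a, b, t, s` and relations `ab = ba`, `at = tb`,
`as = st`, and the wall and projection functions on it.
-/

set_option autoImplicit false

namespace Pool.Agent.Lib.MP_d59f30_al

open SemidirectProduct Multiplicative

theorem exists_cocycle {α K : Type} [Group K] (c : FreeGroup α → α → K) :
    ∃ f : FreeGroup α → K, f 1 = 1 ∧ ∀ w z, f (w * FreeGroup.of z) = f w * c w z := by
  let e : α → Equiv.Perm (FreeGroup α × K) := fun z =>
    { toFun := fun x => (x.1 * FreeGroup.of z, x.2 * c x.1 z)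
      invFun := fun x => (x.1 * (FreeGroup.of z)⁻¹, x.2 * (c (x.1 * (FreeGroup.of z)⁻¹) z)⁻¹)
      left_inv := fun x => by simp
      right_inv := fun x => by simp }
  let Φ : FreeGroup α →* (Equiv.Perm (FreeGroup α × K))ᵐᵒᵖ :=
    FreeGroup.lift (fun z => MulOpposite.op (e z))
  have h1 : ∀ w x, ((Φ w).unop x).1 = x.1 * w := by
    intro w
    induction w using FreeGroup.induction_on with
    | C1 => intro x; simp
    | of z => intro x; simp [Φ, e]
    | inv_of z _ => intro x; simp [Φ, e, Equiv.Perm.inv_def]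
    | mul u v hu hv => intro x; simp [hu, hv, mul_assoc]
  refine ⟨fun w => ((Φ w).unop (1, 1)).2, by simp, fun w z => ?_⟩
  have : Φ (FreeGroup.of z) = MulOpposite.op (e z) := by simp [Φ]
  simp [this, e, h1]

theorem exists_cocycle_int {α : Type} (c : FreeGroup α → α → ℤ) :
    ∃ f : FreeGroup α → ℤ, f 1 = 0 ∧ ∀ w z, f (w * FreeGroup.of z) = f w + c w z := by
  obtain ⟨f, h1, h2⟩ := exists_cocycle (K := Multiplicative ℤ) (fun w z => ofAdd (c w z))
  exact ⟨fun w => toAdd (f w), by simp [h1], fun w z => by simp [h2]⟩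

theorem inv_of_closure {M K : Type} [Group M] (s : Set M) (f : M → K) (Q : M → Prop)
    (hQ : ∀ w, ∀ v ∈ Subgroup.closure s, Q w → Q (w * v))
    (hf : ∀ w, Q w → ∀ x ∈ s, f (w * x) = f w) :
    ∀ v ∈ Subgroup.closure s, ∀ w, Q w → f (w * v) = f w := by
  intro v hv
  induction hv using Subgroup.closure_induction with
  | mem x hx => intro w hw; exact hf w hw x hx
  | one => intro w _; simp
  | mul x y hx _ ihx ihy =>
    intro w hw
    rw [← mul_assoc, ihy _ (hQ w x hx hw), ihx w hw]
  | inv x hx ih =>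
    intro w hw
    have := ih (w * x⁻¹) (hQ w _ (inv_mem hx) hw)
    simpa using this.symm

/-- The free group of rank three. -/
abbrev FF : Type := FreeGroup (Fin 3)

/-- First free generator. -/
def xB : FF := FreeGroup.of 0
/-- Second free generator. -/
def xT : FF := FreeGroup.of 1
/-- Third free generator. -/
def xS : FF := FreeGroup.of 2

/-- The monodromy, a polynomially growing automorphism. -/
def psi : MulAut FF :=
  MonoidHom.toMulEquiv (FreeGroup.lift ![xB, xT * xB, xS * xT])
    (FreeGroup.lift ![xB, xT * xB⁻¹, xS * xB * xT⁻¹])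
    (by ext i; fin_cases i <;> simp [xB, xT, xS])
    (by ext i; fin_cases i <;> simp [xB, xT, xS])

theorem psi_B : psi xB = xB := by simp [psi, xB]
theorem psi_T : psi xT = xT * xB := by simp [psi, xT]
theorem psi_S : psi xS = xS * xT := by simp [psi, xS]
theorem psi_inv_B : psi⁻¹ xB = xB := by
  rw [MulAut.inv_apply, MulEquiv.symm_apply_eq, psi_B]
theorem psi_inv_T : psi⁻¹ xT = xT * xB⁻¹ := by
  rw [MulAut.inv_apply, MulEquiv.symm_apply_eq]; simp [psi_B, psi_T]
theorem psi_inv_S : psi⁻¹ xS = xS * (xB * xT⁻¹) := by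
  rw [MulAut.inv_apply, MulEquiv.symm_apply_eq]; simp [psi_B, psi_T, psi_S]

theorem psi_pow_B (k : ℤ) : (psi ^ k) xB = xB := by
  induction k with
  | zero => simp
  | succ k ih => rw [zpow_add_one, MulAut.mul_apply, psi_B, ih]
  | pred k ih => rw [zpow_sub_one, MulAut.mul_apply, psi_inv_B, ih]

theorem psi_pow_T (k : ℤ) : (psi ^ k) xT = xT * xB ^ k := by
  induction k with
  | zero => simp
  | succ k ih => rw [zpow_add_one, MulAut.mul_apply, psi_T, map_mul, ih, psi_pow_B]; group
  | pred k ih =>
    rw [zpow_sub_one, MulAut.mul_apply, psi_inv_T, map_mul, map_inv, ih, psi_pow_B]; group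

/-- The free factor on the first two generators. -/
def HH : Subgroup FF := Subgroup.closure {xB, xT}

theorem B_mem : xB ∈ HH := Subgroup.subset_closure (by simp)
theorem T_mem : xT ∈ HH := Subgroup.subset_closure (by simp)

theorem psi_pow_S (k : ℤ) : xS⁻¹ * (psi ^ k) xS ∈ HH := by
  induction k with
  | zero => simp
  | succ k ih =>
    rw [zpow_add_one, MulAut.mul_apply, psi_S, map_mul, psi_pow_T, ← mul_assoc]
    exact mul_mem ih (mul_mem T_mem (zpow_mem B_mem _))
  | pred k ih =>
    rw [zpow_sub_one, MulAut.mul_apply, psi_inv_S, map_mul, map_mul, map_inv, psi_pow_T,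
      psi_pow_B, ← mul_assoc]
    exact mul_mem ih (mul_mem B_mem (inv_mem (mul_mem T_mem (zpow_mem B_mem _))))

/-- The action of the integers. -/
def phi : Multiplicative ℤ →* MulAut FF := zpowersHom _ psi

/-- The group. -/
abbrev GG : Type := FF ⋊[phi] Multiplicative ℤ

/-- Generator `a`. -/
def ga : GG := inr (ofAdd 1)
/-- Generator `b`. -/
def gb : GG := inl xB * ga
/-- Generator `t`. -/
def gt : GG := inl xT * ga
/-- Generator `s`. -/
def gs : GG := inl xS

/-- The height. -/
def ht (g : GG) : ℤ := toAdd g.right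

theorem ht_mul (g h : GG) : ht (g * h) = ht g + ht h := rfl
theorem ht_one : ht 1 = 0 := rfl
theorem ht_inv (g : GG) : ht g⁻¹ = - ht g := rfl
theorem ht_ga : ht ga = 1 := rfl
theorem ht_gb : ht gb = 1 := rfl
theorem ht_gt : ht gt = 1 := rfl
theorem ht_gs : ht gs = 0 := rfl
theorem ht_inl (w : FF) : ht (inl w) = 0 := rfl

theorem ht_zpow (g : GG) (k : ℤ) : ht (g ^ k) = k * ht g := by
  have : (g ^ k).right = g.right ^ k := map_zpow (rightHom : GG →* Multiplicative ℤ) g k
  simp [ht, this]

theorem ht_pow (g : GG) (k : ℕ) : ht (g ^ k) = k * ht g := by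
  rw [← zpow_natCast, ht_zpow]

theorem left_mul (g h : GG) : (g * h).left = g.left * (psi ^ ht g) h.left := rfl

theorem left_mul_ga (g : GG) : (g * ga).left = g.left := by
  rw [left_mul]; simp [ga]

theorem left_mul_gb (g : GG) : (g * gb).left = g.left * xB := by
  rw [gb, ← mul_assoc, left_mul_ga, left_mul, left_inl, psi_pow_B]

theorem left_mul_gt (g : GG) : (g * gt).left = g.left * xT * xB ^ ht g := by
  rw [gt, ← mul_assoc, left_mul_ga, left_mul, left_inl, psi_pow_T, mul_assoc]

theorem left_mul_gs (g : GG) : ∃ u ∈ HH, (g * gs).left = g.left * xS * u :=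
  ⟨_, psi_pow_S (ht g), by rw [gs, left_mul, left_inl]; group⟩

theorem ga_zpow (k : ℤ) : ga ^ k = inr (ofAdd k) := by
  rw [ga, ← map_zpow]; congr 1
  rw [← ofAdd_zsmul]; simp

theorem left_mul_ga_zpow (g : GG) (k : ℤ) : (g * ga ^ k).left = g.left := by
  rw [left_mul, ga_zpow]; simp

theorem eq_inl_mul (g : GG) : g = inl g.left * ga ^ ht g := by
  rw [ga_zpow]; exact (inl_left_mul_inr_right g).symm

theorem eq_of_left_eq {g h : GG} (e : g.left = h.left) : g = h * ga ^ (ht g - ht h) := by
  conv_lhs => rw [eq_inl_mul g]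
  conv_rhs => rw [eq_inl_mul h]
  rw [e, ht_mul, ht_inl, ht_zpow, ht_ga]; group

theorem ga_inl (w : FF) : ga * inl w = inl (psi w) * ga := by
  have := inl_aut (φ := phi) (ofAdd 1) w
  have e : phi (ofAdd 1) = psi := by simp [phi]
  rw [e] at this
  rw [this, ga]; simp

theorem rel_ab : ga * gb = gb * ga := by
  rw [gb, ← mul_assoc, ga_inl, psi_B]

theorem rel_at : ga * gt = gt * gb := by
  rw [gt, gb, ← mul_assoc, ga_inl, psi_T, map_mul, mul_assoc (inl xT) ga, ← mul_assoc ga,
    ga_inl, psi_B]
  simp only [mul_assoc]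

theorem rel_as : ga * gs = gs * gt := by
  rw [gs, gt, ga_inl, psi_S, map_mul, mul_assoc]

theorem comm_ab : Commute ga gb := rel_ab

theorem rel_at_zpow (k : ℤ) : ga ^ k * gt = gt * gb ^ k :=
  ((show SemiconjBy gt gb ga from rel_at.symm).zpow_right k).symm

theorem rel_as_zpow (k : ℤ) : ga ^ k * gs = gs * gt ^ k :=
  ((show SemiconjBy gs gt ga from rel_as.symm).zpow_right k).symm

theorem closure_gens : Subgroup.closure ({ga, gb, gt, gs} : Set GG) = ⊤ := by
  set K := Subgroup.closure ({ga, gb, gt, gs} : Set GG) with hK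
  have ha : ga ∈ K := Subgroup.subset_closure (by simp)
  have hb : gb ∈ K := Subgroup.subset_closure (by simp)
  have ht' : gt ∈ K := Subgroup.subset_closure (by simp)
  have hs : gs ∈ K := Subgroup.subset_closure (by simp)
  have hw : ∀ w : FF, (inl w : GG) ∈ K := by
    intro w
    induction w using FreeGroup.induction_on with
    | C1 => simp
    | of z =>
      fin_cases z
      · have : (inl xB : GG) = gb * ga⁻¹ := by simp [gb]
        exact this ▸ mul_mem hb (inv_mem ha)
      · have : (inl xT : GG) = gt * ga⁻¹ := by simp [gt]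
        exact this ▸ mul_mem ht' (inv_mem ha)
      · exact hs
    | inv_of z ih => rw [map_inv]; exact inv_mem ih
    | mul u v hu hv => rw [map_mul]; exact mul_mem hu hv
  rw [eq_top_iff]
  intro g _
  rw [eq_inl_mul g]
  exact mul_mem (hw _) (zpow_mem ha _)

/-- Exponent sum of a letter. -/
def expo (i : Fin 3) : FF →* Multiplicative ℤ :=
  FreeGroup.lift (fun z => if z = i then ofAdd 1 else 1)

theorem expoS_HH {w : FF} (hw : w ∈ HH) : expo 2 w = 1 := by
  have : HH ≤ (expo 2).ker := by
    rw [HH, Subgroup.closure_le]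
    rintro x (rfl | rfl) <;> simp [expo, xB, xT]
  exact this hw

theorem mul_S_not_mem {w : FF} (hw : w ∈ HH) : w * xS ∉ HH := by
  intro h
  have h1 := expoS_HH h
  rw [map_mul, expoS_HH hw] at h1
  simp [expo, xS] at h1

theorem expoT_B (k : ℤ) : expo 1 (xB ^ k) = 1 := by
  simp [expo, xB]

theorem expoT_T : expo 1 xT = ofAdd 1 := by simp [expo, xT]

theorem mul_T_not_mem {w : FF} (hw : w ∈ Subgroup.zpowers xB) :
    w * xT ∉ Subgroup.zpowers xB := by
  rintro ⟨k, hk⟩
  obtain ⟨j, rfl⟩ := hw
  have h1 := congrArg (expo 1) hk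
  simp only [map_mul, expoT_B, expoT_T] at h1
  have := congrArg toAdd h1
  simp at this

theorem B_zpow_inj {j k : ℤ} (h : xB ^ j = xB ^ k) : j = k := by
  have h1 := congrArg (fun w => toAdd (expo 0 w)) h
  simpa [expo, xB] using h1

end Pool.Agent.Lib.MP_d59f30_al
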