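import Pool.Agent.Lib.MP_d59f30_al.Defs

/-!
General facts: quasi-redirection is transitive, descending sequences give infinite height,
rectifiable paths can be discretised, and Lipschitz paths bound the divergence.
-/

set_option autoImplicit false

namespace Pool.Agent.Lib.MP_d59f30_al

open scoped NNReal ENNReal
open Set

variable {X : Type} [MetricSpace X]

theorem Redirects.trans {α β γ : QuasiRay X} (h1 : Redirects α β) (h2 : Redirects β γ) :
    Redirects α γ := by
  obtain ⟨q₁, Q₁, h1⟩ := h1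
  obtain ⟨q₂, Q₂, h2⟩ := h2
  obtain ⟨qa, Qa, hqa, hQa, ha⟩ := α.2
  obtain ⟨qb, Qb, hqb, hQb, hb⟩ := β.2
  refine ⟨2 * (q₁ + q₂), Q₁ + Q₂, fun r hr => ?_⟩
  obtain ⟨δ₁, ⟨hq₁, hQ₁, hδ₁⟩, a₁, s₁, T₁, hs₁, hT₁, e₁⟩ := h1 r hr
  have hq₂' : 1 ≤ q₂ := (h2 1 one_pos).choose_spec.1.1
  let T' : ℝ≥0 := T₁ + NNReal.mk (2 * T₁ + 2 * q₂ * q₁ * T₁ + qa * (r + Qa)) (by positivity)
  have hT' : (T' : ℝ) = T₁ + (2 * T₁ + 2 * q₂ * q₁ * T₁ + qa * (r + Qa)) := rfl
  obtain ⟨δ₂, ⟨hq₂, hQ₂, hδ₂⟩, a₂, s₂, T₂, hs₂, hT₂, e₂⟩ :=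
    h2 (qb * (T' + s₁) + Qb + 1) (by positivity)
  let δ : ℝ≥0 → X := fun t => if t ≤ T₁ then δ₁ t else δ₂ (t + s₁)
  have mid : ∀ t : ℝ≥0, T₁ ≤ t → t ≤ T' → δ₂ (t + s₁) = δ₁ t := by
    intro t h h'
    rw [e₁ t h]
    apply a₂
    rw [Metric.mem_ball]
    have := (hb (t + s₁) 0).2
    have h'' : (t : ℝ) ≤ T' := h'
    rw [NNReal.coe_zero, sub_zero, abs_of_nonneg (by positivity), NNReal.coe_add] at this
    nlinarith
  have lo : ∀ t : ℝ≥0, t ≤ T' → δ t = δ₁ t := by
    intro t h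
    by_cases h' : t ≤ T₁
    · exact if_pos h'
    · simp only [δ, if_neg h']; exact mid t (not_le.1 h').le h
  have hTT : T₁ ≤ T' := le_self_add
  have hi : ∀ t : ℝ≥0, T₁ ≤ t → δ t = δ₂ (t + s₁) := by
    intro t h
    by_cases h' : t ≤ T₁
    · simp only [δ, if_pos h']; exact (mid t h (h'.trans hTT)).symm
    · exact if_neg h'
  have weak : ∀ (x y q Q : ℝ), 0 ≤ x → 1 ≤ q → q ≤ q₁ + q₂ → Q ≤ Q₁ + Q₂ →
      (x / q - Q ≤ y ∧ y ≤ q * x + Q) →
      (x / (2 * (q₁ + q₂)) - (Q₁ + Q₂) ≤ y ∧ y ≤ 2 * (q₁ + q₂) * x + (Q₁ + Q₂)) := by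
    intro x y q Q hx hq hq' hQ h
    have : x / (2 * (q₁ + q₂)) ≤ x / q := div_le_div_of_nonneg_left hx (by linarith) (by linarith)
    constructor
    · linarith [h.1]
    · nlinarith [h.2]
  have main : ∀ s t : ℝ≥0, s ≤ t →
      |(s : ℝ) - t| / (2 * (q₁ + q₂)) - (Q₁ + Q₂) ≤ dist (δ s) (δ t) ∧
      dist (δ s) (δ t) ≤ 2 * (q₁ + q₂) * |(s : ℝ) - t| + (Q₁ + Q₂) := by
    intro s t hst
    by_cases c1 : t ≤ T'
    · rw [lo s (hst.trans c1), lo t c1]
      exact weak _ _ q₁ Q₁ (abs_nonneg _) hq₁ (by linarith) (by linarith) (hδ₁ s t)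
    by_cases c2 : T₁ ≤ s
    · rw [hi s c2, hi t (c2.trans hst)]
      have := hδ₂ (s + s₁) (t + s₁)
      rw [NNReal.coe_add, NNReal.coe_add, add_sub_add_right_eq_sub] at this
      exact weak _ _ q₂ Q₂ (abs_nonneg _) hq₂ (by linarith) (by linarith) this
    have c1' : (T' : ℝ) < t := not_le.1 c1
    have c2' : (s : ℝ) < T₁ := not_le.1 c2
    have hs0 : (0 : ℝ) ≤ s := s.2
    have hT0 : (0 : ℝ) ≤ T₁ := T₁.2
    have hTT' : (T₁ : ℝ) ≤ T' := hTT
    have b1 := (hδ₁ s T₁).2
    rw [← lo s ((not_le.1 c2).le.trans hTT), ← lo T₁ hTT, abs_of_nonpos (by linarith)] at b1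
    have b2 := hδ₂ (T₁ + s₁) (t + s₁)
    rw [NNReal.coe_add, NNReal.coe_add, add_sub_add_right_eq_sub, ← hi T₁ le_rfl,
      ← hi t (hTT.trans (not_le.1 c1).le), abs_of_nonpos (by linarith)] at b2
    rw [abs_of_nonpos (by linarith)]
    have t1 := dist_triangle (δ s) (δ T₁) (δ t)
    have t2 := dist_triangle (δ T₁) (δ s) (δ t)
    rw [dist_comm (δ T₁) (δ s)] at t2
    constructor
    · have k1 : -((s : ℝ) - t) / (2 * (q₁ + q₂)) ≤ t / (2 * q₂) :=
        div_le_div₀ (by positivity) (by linarith) (by linarith) (by linarith)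
      have k2 : (t : ℝ) / (2 * q₂) + q₁ * T₁ ≤ -((T₁ : ℝ) - t) / q₂ := by
        rw [div_add' _ _ _ (by positivity), div_le_div_iff₀ (by positivity) (by positivity)]
        have : 0 ≤ qa * (r + Qa) := by positivity
        have k3 : 2 * T₁ + 2 * q₂ * q₁ * T₁ ≤ (t : ℝ) := by linarith
        nlinarith
      nlinarith [b2.1]
    · nlinarith [b2.2]
  refine ⟨δ, ⟨by linarith, by linarith, fun s t => ?_⟩, fun t ht => ?_, s₁ + s₂, T₁ + T₂,
    by positivity, by positivity, fun t ht => ?_⟩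
  · rcases le_total s t with h | h
    · exact main s t h
    · rw [abs_sub_comm, dist_comm]; exact main t s h
  · rw [← a₁ t ht]
    apply lo
    have h := (ha t 0).1
    rw [Metric.mem_ball] at ht
    rw [NNReal.coe_zero, sub_zero, abs_of_nonneg (NNReal.coe_nonneg t)] at h
    have h' : (t : ℝ) / qa < r + Qa := by linarith
    rw [div_lt_iff₀ (by linarith)] at h'
    have : (t : ℝ) ≤ T' := by
      rw [hT']
      have : 0 ≤ 2 * q₂ * q₁ * (T₁ : ℝ) := by positivity
      have : (0 : ℝ) ≤ T₁ := T₁.2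
      nlinarith
    exact this
  · rw [hi t (le_self_add.trans ht), e₂ _ ((le_add_self.trans ht).trans le_self_add), add_assoc]

theorem height_top_of_seq (α : ℕ → QuasiRay X) (h1 : ∀ i, Redirects (α (i + 1)) (α i))
    (h2 : ∀ i, ¬ Redirects (α i) (α (i + 1))) :
    (Set.univ : Set (QRPoset X)).chainHeight (QRLe X) = ⊤ := by
  have hlt : ∀ i j, i < j → Redirects (α j) (α i) := by
    intro i j hij
    induction j, hij using Nat.le_induction with
    | base => exact h1 i
    | succ j _ ih => exact (h1 j).trans ih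
  have heq : ∀ a b : QuasiRay X,
      Relation.EqvGen (fun α β : QuasiRay X => Redirects α β ∧ Redirects β α) a b →
      a = b ∨ (Redirects a b ∧ Redirects b a) := by
    intro a b h
    induction h with
    | rel _ _ h => exact Or.inr h
    | refl _ => exact Or.inl rfl
    | symm _ _ _ ih => exact ih.imp Eq.symm And.symm
    | trans _ _ _ _ _ ih1 ih2 =>
      rcases ih1 with rfl | ih1
      · exact ih2
      · rcases ih2 with rfl | ih2
        · exact Or.inr ih1
        · exact Or.inr ⟨ih1.1.trans ih2.1, ih2.2.trans ih1.2⟩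
  let c : ℕ → QRPoset X := fun i => Quot.mk _ (α i)
  have hne : ∀ i j, i < j → c i ≠ c j := by
    intro i j hij e
    have hr : Redirects (α i) (α j) := by
      rcases heq _ _ (Quot.eqvGen_exact e) with h | h
      · have := hlt i j hij
        rw [← h] at this
        rwa [← h]
      · exact h.1
    rcases Nat.lt_or_eq_of_le (Nat.succ_le_of_lt hij) with h | h
    · exact h2 i (hr.trans (hlt _ _ h))
    · subst h; exact h2 i hr
  have hinj : Function.Injective c := by
    intro i j e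
    rcases lt_trichotomy i j with h | h | h
    · exact absurd e (hne i j h)
    · exact h
    · exact absurd e.symm (hne j i h)
  have hchain : IsChain (QRLe X) (Set.range c) := by
    rintro _ ⟨i, rfl⟩ _ ⟨j, rfl⟩ hij
    rcases lt_trichotomy i j with h | h | h
    · exact Or.inr ⟨α j, α i, rfl, rfl, hlt i j h⟩
    · exact absurd (congrArg c h) hij
    · exact Or.inl ⟨α i, α j, rfl, rfl, hlt j i h⟩
  have := Set.encard_le_chainHeight_of_isChain Set.univ _ (Set.subset_univ _) hchain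
  rwa [(Set.infinite_range_of_injective hinj).encard_eq, top_le_iff] at this

theorem exists_chain (f : ℝ → X) (hf : Continuous f) (b : ℝ) (k : ℕ) :
    ∀ a : ℝ, a ≤ b → eVariationOn f (Icc a b) ≤ k →
      ∃ τ : ℕ → ℝ, τ 0 = a ∧ (∀ i, k + 1 ≤ i → τ i = b) ∧ (∀ i, τ i ∈ Icc a b) ∧
        ∀ i, dist (f (τ i)) (f (τ (i + 1))) ≤ 1 := by
  have easy : ∀ (k : ℕ) (a : ℝ), a ≤ b → dist (f a) (f b) ≤ 1 →
      ∃ τ : ℕ → ℝ, τ 0 = a ∧ (∀ i, k + 1 ≤ i → τ i = b) ∧ (∀ i, τ i ∈ Icc a b) ∧
        ∀ i, dist (f (τ i)) (f (τ (i + 1))) ≤ 1 := by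
    intro k a hab h
    refine ⟨fun i => if i = 0 then a else b, rfl, fun i hi => if_neg (by omega), fun i => ?_,
      fun i => ?_⟩
    · dsimp only; split_ifs
      exacts [left_mem_Icc.2 hab, right_mem_Icc.2 hab]
    · rcases i with _ | i
      · simpa using h
      · simp
  induction k with
  | zero =>
    intro a hab h
    apply easy 0 a hab
    have := (eVariationOn.edist_le f (left_mem_Icc.2 hab) (right_mem_Icc.2 hab)).trans h
    rw [Nat.cast_zero, nonpos_iff_eq_zero, edist_eq_zero] at this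
    rw [this]; simp
  | succ k ih =>
    intro a hab h
    by_cases h1 : dist (f a) (f b) ≤ 1
    · exact easy _ a hab h1
    have hc : ContinuousOn (fun t => dist (f a) (f t)) (Icc a b) := by fun_prop
    obtain ⟨t, ht, e⟩ := intermediate_value_Icc hab hc
      (show (1 : ℝ) ∈ Icc (dist (f a) (f a)) (dist (f a) (f b)) from
        ⟨by simp, (not_le.1 h1).le⟩)
    have e' : dist (f a) (f t) = 1 := e
    have h2 : (1 : ℝ≥0∞) ≤ eVariationOn f (Icc a t) := by
      have := eVariationOn.edist_le f (left_mem_Icc.2 ht.1) (right_mem_Icc.2 ht.1)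
      rwa [edist_dist, e', ENNReal.ofReal_one] at this
    have h3 := eVariationOn.Icc_add_Icc f (s := Set.univ) ht.1 ht.2 (Set.mem_univ t)
    simp only [Set.univ_inter] at h3
    have h4 : eVariationOn f (Icc t b) ≤ k := by
      have : 1 + eVariationOn f (Icc t b) ≤ 1 + (k : ℝ≥0∞) := by
        calc 1 + eVariationOn f (Icc t b)
            ≤ eVariationOn f (Icc a t) + eVariationOn f (Icc t b) := by gcongr
          _ ≤ ((k + 1 : ℕ) : ℝ≥0∞) := by rw [h3]; exact h
          _ = 1 + k := by push_cast; ring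
      exact (ENNReal.add_le_add_iff_left ENNReal.one_ne_top).1 this
    obtain ⟨τ, t0, t1, t2, t3⟩ := ih t ht.2 h4
    refine ⟨fun i => if i = 0 then a else τ (i - 1), rfl, fun i hi => ?_, fun i => ?_, fun i => ?_⟩
    · simp only [if_neg (show i ≠ 0 by omega)]; exact t1 _ (by omega)
    · dsimp only; split_ifs
      · exact left_mem_Icc.2 hab
      · exact ⟨ht.1.trans (t2 _).1, (t2 _).2⟩
    · rcases i with _ | i
      · simp [t0, e']
      · simpa using t3 i

theorem exists_chain_path {x y : X} (p : Path x y) (k : ℕ) (h : eVariationOn p Set.univ ≤ k) :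
    ∃ z : ℕ → X, z 0 = x ∧ z (k + 1) = y ∧ (∀ i, ∃ t, z i = p t) ∧
      ∀ i, dist (z i) (z (i + 1)) ≤ 1 := by
  have e : eVariationOn p.extend (Icc 0 1) = eVariationOn p Set.univ := by
    have := eVariationOn.comp_eq_of_monotoneOn p.extend (t := (Set.univ : Set unitInterval))
      Subtype.val (fun _ _ _ _ h => h)
    rw [Set.image_univ, Subtype.range_coe] at this
    rw [← this]
    congr 1
    funext t
    exact p.extend_extends' t
  obtain ⟨τ, t0, t1, t2, t3⟩ := exists_chain p.extend p.continuous_extend 1 k 0 zero_le_one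
    (e ▸ h)
  exact ⟨fun i => p.extend (τ i), by simp [t0], by simp [t1 _ le_rfl],
    fun i => ⟨⟨τ i, t2 i⟩, p.extend_apply (t2 i)⟩, t3⟩

/-- A unit-speed-bounded path of duration `L` inside `A`. -/
def Joined' (A : Set X) (x y : X) (L : ℝ) : Prop :=
  0 ≤ L ∧ ∃ f : ℝ → X, f 0 = x ∧ f L = y ∧ (∀ t ∈ Icc 0 L, f t ∈ A) ∧
    ∀ s ∈ Icc 0 L, ∀ t ∈ Icc 0 L, s ≤ t → dist (f s) (f t) ≤ t - s

theorem Joined'.refl {A : Set X} {x : X} (h : x ∈ A) : Joined' A x x 0 :=
  ⟨le_rfl, fun _ => x, rfl, rfl, fun _ _ => h, fun s _ t _ h => by simpa using h⟩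

theorem Joined'.mono {A B : Set X} {x y : X} {L : ℝ} (h : Joined' A x y L) (hAB : A ⊆ B) :
    Joined' B x y L := by
  obtain ⟨h0, f, h1, h2, h3, h4⟩ := h
  exact ⟨h0, f, h1, h2, fun t ht => hAB (h3 t ht), h4⟩

theorem Joined'.symm {A : Set X} {x y : X} {L : ℝ} (h : Joined' A x y L) : Joined' A y x L := by
  obtain ⟨h0, f, h1, h2, h3, h4⟩ := h
  refine ⟨h0, fun t => f (L - t), by simp [h2], by simp [h1],
    fun t ht => h3 _ ⟨by linarith [ht.2], by linarith [ht.1]⟩, fun s hs t ht hst => ?_⟩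
  have := h4 (L - t) ⟨by linarith [ht.2], by linarith [ht.1]⟩ (L - s)
    ⟨by linarith [hs.2], by linarith [hs.1]⟩ (by linarith)
  rw [dist_comm]; linarith

theorem Joined'.trans {A : Set X} {x y z : X} {L M : ℝ} (h : Joined' A x y L)
    (h' : Joined' A y z M) : Joined' A x z (L + M) := by
  obtain ⟨h0, f, h1, h2, h3, h4⟩ := h
  obtain ⟨k0, g, k1, k2, k3, k4⟩ := h'
  let F : ℝ → X := fun t => if t ≤ L then f t else g (t - L)
  have lo : ∀ t, t ≤ L → F t = f t := fun t ht => if_pos ht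
  have hi : ∀ t, L ≤ t → F t = g (t - L) := by
    intro t ht
    rcases ht.eq_or_lt with e | e
    · rw [← e, lo L le_rfl, sub_self, h2, k1]
    · exact if_neg (not_le.2 e)
  refine ⟨by linarith, F, by rw [lo 0 h0, h1], by rw [hi _ (by linarith), add_sub_cancel_left, k2],
    fun t ht => ?_, fun s hs t ht hst => ?_⟩
  · rcases le_total t L with e | e
    · rw [lo t e]; exact h3 t ⟨ht.1, e⟩
    · rw [hi t e]; exact k3 _ ⟨by linarith, by linarith [ht.2]⟩
  · rcases le_total t L with e | e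
    · rw [lo t e, lo s (hst.trans e)]; exact h4 s ⟨hs.1, hst.trans e⟩ t ⟨ht.1, e⟩ hst
    · rcases le_total s L with e' | e'
      · have a1 := h4 s ⟨hs.1, e'⟩ L ⟨h0, le_rfl⟩ e'
        have a2 := k4 0 ⟨le_rfl, k0⟩ (t - L) ⟨by linarith, by linarith [ht.2]⟩ (by linarith)
        rw [lo s e', hi t e]
        rw [h2] at a1
        rw [k1] at a2
        linarith [dist_triangle (f s) y (g (t - L))]
      · have := k4 (s - L) ⟨by linarith, by linarith [hs.2]⟩ (t - L)
          ⟨by linarith, by linarith [ht.2]⟩ (by linarith)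
        rw [hi s e', hi t e]; linarith

theorem Joined'.path {A : Set X} {x y : X} {L : ℝ} (h : Joined' A x y L) :
    ∃ p : Path x y, (∀ t, p t ∈ A) ∧ eVariationOn p Set.univ ≤ ENNReal.ofReal L := by
  obtain ⟨h0, f, h1, h2, h3, h4⟩ := h
  have hm : ∀ t : unitInterval, L * t ∈ Icc 0 L := fun t =>
    ⟨mul_nonneg h0 t.2.1, mul_le_of_le_one_right h0 t.2.2⟩
  have hlip : LipschitzWith (NNReal.mk L h0) (fun t : unitInterval => f (L * t)) := by
    refine LipschitzWith.of_dist_le_mul (fun s t => ?_)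
    rw [Subtype.dist_eq, Real.dist_eq, NNReal.coe_mk]
    rcases le_total (s : ℝ) t with e | e
    · rw [abs_of_nonpos (by linarith)]
      have := h4 _ (hm s) _ (hm t) (mul_le_mul_of_nonneg_left e h0)
      linarith
    · rw [abs_of_nonneg (by linarith), dist_comm]
      have := h4 _ (hm t) _ (hm s) (mul_le_mul_of_nonneg_left e h0)
      linarith
  refine ⟨{ toFun := fun t => f (L * t)
            continuous_toFun := hlip.continuous
            source' := by simp [h1]
            target' := by simp [h2] }, fun t => h3 _ (hm t), ?_⟩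
  have e1 := (hlip.lipschitzOnWith (s := Set.univ)).comp_eVariationOn_le
    (g := (id : unitInterval → unitInterval)) (s := Set.univ) (fun _ _ => Set.mem_univ _)
  have e2 : eVariationOn (id : unitInterval → unitInterval) Set.univ ≤ 1 := by
    have a1 : eVariationOn (id : unitInterval → unitInterval) Set.univ =
        eVariationOn (fun t : unitInterval => (t : ℝ)) Set.univ := rfl
    have a2 := MonotoneOn.eVariationOn_eq (f := fun t : unitInterval => (t : ℝ)) (s := Set.univ)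
      (fun _ _ _ _ h => h) (a := 0) (b := 1) (Set.mem_univ _) (Set.mem_univ _)
    have a3 : (Set.univ : Set unitInterval) ∩ Icc 0 1 = Set.univ := by
      ext t; simp [unitInterval.le_one']
    rw [a3] at a2
    rw [a1, a2]; simp
  refine e1.trans ?_
  calc ((NNReal.mk L h0 : ℝ≥0) : ℝ≥0∞) * eVariationOn (id : unitInterval → unitInterval) Set.univ
      ≤ ((NNReal.mk L h0 : ℝ≥0) : ℝ≥0∞) * 1 := by gcongr
    _ = ENNReal.ofReal L := by rw [mul_one, ENNReal.ofReal_eq_coe_nnreal h0]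

end Pool.Agent.Lib.MP_d59f30_al
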