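import Pool.Agent.Lib.MP_d59f30_al.Space

/-!
The rays along the `a`-lines form an infinite strictly descending chain.
-/

set_option autoImplicit false

namespace Pool.Agent.Lib.MP_d59f30_al

open scoped NNReal ENNReal

theorem blk_bounds {P : ℕ → GG} (hP : ∀ j, Blk (P j) (P (j + 1))) (i k : ℕ) :
    k ≤ d (P i) (P (i + k)) ∧ d (P i) (P (i + k)) ≤ 3 * k := by
  have h1 : ht (P i) + k ≤ ht (P (i + k)) ∧ d (P i) (P (i + k)) ≤ 3 * k := by
    induction k with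
    | zero => simp [d_self]
    | succ k ih =>
      have a1 := hP (i + k)
      have a2 := d_triangle (P i) (P (i + k)) (P (i + k + 1))
      rw [← add_assoc]
      unfold Blk at a1
      push_cast
      omega
  have h2 := ht_le_d (P i) (P (i + k))
  have h3 := le_abs_self (ht (P (i + k)) - ht (P i))
  omega

theorem blk_quasi {P : ℕ → GG} (hP : ∀ j, Blk (P j) (P (j + 1))) :
    IsQuasiRay 3 3 (fun t : ℝ≥0 => vtx (P ⌊t⌋₊)) := by
  have main : ∀ s t : ℝ≥0, s ≤ t →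
      |(s : ℝ) - t| / 3 - 3 ≤ dist (vtx (P ⌊s⌋₊)) (vtx (P ⌊t⌋₊)) ∧
      dist (vtx (P ⌊s⌋₊)) (vtx (P ⌊t⌋₊)) ≤ 3 * |(s : ℝ) - t| + 3 := by
    intro s t hst
    obtain ⟨k, hk⟩ := Nat.exists_eq_add_of_le (Nat.floor_mono hst)
    obtain ⟨a1, a2⟩ := blk_bounds hP ⌊s⌋₊ k
    rw [← hk] at a1 a2
    have b1 : (k : ℝ) ≤ d (P ⌊s⌋₊) (P ⌊t⌋₊) := by exact_mod_cast a1
    have b2 : (d (P ⌊s⌋₊) (P ⌊t⌋₊) : ℝ) ≤ 3 * k := by exact_mod_cast a2
    have c1 : ((⌊s⌋₊ : ℕ) : ℝ) ≤ s := by exact_mod_cast Nat.floor_le s.2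
    have c2 : (s : ℝ) < (⌊s⌋₊ : ℕ) + 1 := by exact_mod_cast Nat.lt_floor_add_one s
    have c3 : ((⌊t⌋₊ : ℕ) : ℝ) ≤ t := by exact_mod_cast Nat.floor_le t.2
    have c4 : (t : ℝ) < (⌊t⌋₊ : ℕ) + 1 := by exact_mod_cast Nat.lt_floor_add_one t
    have c5 : ((⌊t⌋₊ : ℕ) : ℝ) = (⌊s⌋₊ : ℕ) + k := by exact_mod_cast hk
    have hst' : (s : ℝ) ≤ t := hst
    rw [dist_vtx, abs_of_nonpos (by linarith)]
    constructor <;> linarith
  refine ⟨by norm_num, by norm_num, fun s t => ?_⟩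
  rcases le_total s t with h | h
  · exact main s t h
  · rw [abs_sub_comm, dist_comm]; exact main t s h

theorem blk_a (u : GG) (k : ℕ) : Blk (u * ga ^ k) (u * ga ^ (k + 1)) := by
  have := blk_of (u * ga ^ k) ga 1 1 (step1 gen_a) (step_refl 1) (step_refl 1)
    (by simp [ht_ga, ht_one])
  simpa [pow_succ, mul_assoc] using this

/-- The ray from `g` in the direction of `a`. -/
noncomputable def ray (g : GG) : QuasiRay XX :=
  ⟨fun t : ℝ≥0 => vtx (g * ga ^ ⌊t⌋₊), 3, 3, blk_quasi (P := fun j => g * ga ^ j) (blk_a g)⟩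

theorem ray_apply (g : GG) (t : ℝ≥0) : (ray g).1 t = vtx (g * ga ^ ⌊t⌋₊) := rfl

theorem dist_ray (g : GG) (t : ℝ≥0) : dist ((ray g).1 t) ((ray g).1 0) = (⌊t⌋₊ : ℕ) := by
  rw [ray_apply, ray_apply, dist_vtx, Nat.floor_zero]
  have := d_ga_zpow g (⌊t⌋₊ : ℕ) ((0 : ℕ) : ℤ)
  rw [zpow_natCast, zpow_natCast] at this
  have e : d (g * ga ^ ⌊t⌋₊) (g * ga ^ 0) = ⌊t⌋₊ := by
    rw [Nat.cast_zero, zero_sub, abs_neg, Nat.abs_cast] at this
    exact_mod_cast this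
  rw [e]

theorem ray_redirects (g : GG) : Redirects (ray (g * gs⁻¹)) (ray g) := by
  refine ⟨3, 3, fun r _ => ?_⟩
  obtain ⟨P, T, c, hc, hP, h1, h2⟩ := redirect_path g ⌈r⌉₊
  refine ⟨_, blk_quasi hP, fun t ht => ?_, c, T + 1, by exact_mod_cast hc, by positivity,
    fun t ht => ?_⟩
  · rw [Metric.mem_ball, dist_ray] at ht
    have : ⌊t⌋₊ ≤ ⌈r⌉₊ := by exact_mod_cast (ht.le.trans (Nat.le_ceil r))
    simp only [ray_apply, h1 _ this]
  · have : T ≤ ⌊t⌋₊ := Nat.le_floor (le_self_add.trans ht)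
    simp only [ray_apply, h2 _ this, Nat.floor_add_natCast (show (0 : ℝ≥0) ≤ t from zero_le)]

theorem ray_not_redirects (g : GG) : ¬ Redirects (ray g) (ray (g * gs⁻¹)) := by
  rintro ⟨q, Q, h⟩
  obtain ⟨C₁, hC₁⟩ := exists_nat_ge (q + Q + 1)
  obtain ⟨C₂, hC₂⟩ := exists_nat_ge q
  obtain ⟨C₃, hC₃⟩ := exists_nat_ge (Q + 1)
  set C := C₁ * C₂ with hC
  set A := C * (4 * C + 3) + 1 with hA
  set r := A + C₁ + C * (C₃ + C₁) with hr
  obtain ⟨γ, ⟨hq, hQ, hγ⟩, h1, tβ, tγ, _, _, h2⟩ := h (r + 1) (by positivity)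
  have hC₁0 : 0 < C₁ := by exact_mod_cast (by linarith : (0 : ℝ) < C₁)
  have g0 : γ 0 = vtx g := by
    rw [h1 0 (Metric.mem_ball_self (by positivity)), ray_apply]; simp
  have gr : γ (r : ℕ) = vtx (g * ga ^ r) := by
    rw [h1 _ (by rw [Metric.mem_ball, dist_ray]; simp), ray_apply, Nat.floor_natCast]
  choose v hv using fun i : ℕ => exists_near (γ ((r + i : ℕ) : ℝ≥0))
  have v0 : v 0 = g * ga ^ r := (eq_of_near (gr ▸ hv 0)).symm
  obtain ⟨p, p1, p2, p3⟩ := interpolate v C₁ hC₁0 (fun i => by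
    have a1 := (d_near (hv i) (hv (i + 1))).1
    have a2 := (hγ ((r + i : ℕ) : ℝ≥0) ((r + (i + 1) : ℕ) : ℝ≥0)).2
    rw [show |(((r + i : ℕ) : ℝ≥0) : ℝ) - ((r + (i + 1) : ℕ) : ℝ≥0)| = 1 by
      push_cast; rw [abs_sub_comm]; simp] at a2
    exact_mod_cast (by linarith : (d (v i) (v (i + 1)) : ℝ) ≤ C₁))
  obtain ⟨i₀, hi₀⟩ := exists_nat_ge tγ
  have vi : ∃ k : ℕ, v i₀ = g * gs⁻¹ * ga ^ k := by
    have a1 := h2 ((r + i₀ : ℕ) : ℝ≥0) (hi₀.trans (by exact_mod_cast Nat.le_add_left _ _))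
    rw [ray_apply] at a1
    exact ⟨_, (eq_of_near (a1 ▸ hv i₀)).symm⟩
  obtain ⟨k, hk⟩ := vi
  refine no_catch (p := fun j => g⁻¹ * p j) (fun j => (p1 j).left _) (C₁ * i₀) r ?_ ?_ C A le_rfl
    (fun e => ?_)
  · have := p2 0
    rw [mul_zero] at this
    simp only [this, v0, inv_mul_cancel_left, zpow_natCast]
  · have := EE_val (-1) k
    rw [zpow_natCast, zpow_neg_one] at this
    simp only [p2, hk, mul_assoc, inv_mul_cancel_left, this, le_refl]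
  · simp only [← d_eq_one_left]
    set i := e / C₁ with hi
    have a1 := (hγ ((r + i : ℕ) : ℝ≥0) 0).1
    rw [g0, NNReal.coe_zero, sub_zero, abs_of_nonneg (NNReal.coe_nonneg _), NNReal.coe_natCast] at a1
    have a2 := dist_triangle (γ ((r + i : ℕ) : ℝ≥0)) (vtx (v i)) (vtx g)
    rw [dist_vtx, d_comm] at a2
    have a3 : ((r + i : ℕ) : ℝ) / q ≤ d g (v i) + C₃ := by linarith [hv i]
    rw [div_le_iff₀ (by linarith)] at a3
    have a4 : ((r + i : ℕ) : ℝ) ≤ (d g (v i) + C₃) * C₂ :=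
      a3.trans (mul_le_mul_of_nonneg_left hC₂ (by positivity))
    have a5 : r + i ≤ (d g (v i) + C₃) * C₂ := by exact_mod_cast a4
    have a6 := d_triangle g (p e) (v i)
    have a7 := p3 e
    rw [← hi, d_comm] at a7
    have a8 : r + i ≤ (d g (p e) + C₁ + C₃) * C₂ := a5.trans (by gcongr; omega)
    have a9 : C₁ * (r + i) ≤ C * (d g (p e) + C₁ + C₃) := by
      calc C₁ * (r + i) ≤ C₁ * ((d g (p e) + C₁ + C₃) * C₂) := Nat.mul_le_mul_left _ a8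
        _ = C * (d g (p e) + C₁ + C₃) := by rw [hC]; ring
    have b1 := Nat.div_add_mod e C₁
    have b2 := Nat.mod_lt e hC₁0
    have b3 : r ≤ C₁ * r := Nat.le_mul_of_pos_left _ hC₁0
    rw [← hi] at b1
    rw [mul_add] at a9
    have b4 : C * (d g (p e) + C₁ + C₃) = C * d g (p e) + C * (C₃ + C₁) := by ring
    omega

theorem height_top : (Set.univ : Set (QRPoset XX)).chainHeight (QRLe XX) = ⊤ :=
  height_top_of_seq (fun i => ray (gs⁻¹ ^ i))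
    (fun i => by simpa only [pow_succ] using ray_redirects (gs⁻¹ ^ i))
    (fun i => by simpa only [pow_succ] using ray_not_redirects (gs⁻¹ ^ i))

end Pool.Agent.Lib.MP_d59f30_al
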