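import Pool.Agent.Lib.MP_d59f30_al.Upper
import Pool.Agent.Lib.MP_d59f30_al.Order

/-!
Transfer of the combinatorial estimates to the metric Cayley graph.
-/

set_option autoImplicit false

namespace Pool.Agent.Lib.MP_d59f30_al

open scoped NNReal ENNReal
open Set

/-- The metric Cayley graph of the group. -/
abbrev XX : Type := CayleySpace gens gens_top

/-- A point of an edge. -/
noncomputable def pt (g : GG) (x : gens) (τ : unitInterval) : XX :=
  SeparationQuotient.mk ((g, x, τ) : EdgePoint gens gens_top)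

/-- A vertex. -/
noncomputable def vtx (g : GG) : XX := pt g ⟨ga, mem_gens.2 gen_a⟩ 0

theorem dist_pt (g h : GG) (x y : gens) (τ σ : unitInterval) :
    dist (pt g x τ) (pt h y σ) = edgeDist gens (g, x, τ) (h, y, σ) :=
  SeparationQuotient.dist_mk _ _

theorem edgeDist_le_via (p q : GG × gens × unitInterval) : edgeDist gens p q ≤ viaEnds gens p q := by
  unfold edgeDist; split_ifs <;> simp

theorem dist_vtx (g h : GG) : dist (vtx g) (vtx h) = d g h := by
  have v : viaEnds gens (g, ⟨ga, mem_gens.2 gen_a⟩, 0) (h, ⟨ga, mem_gens.2 gen_a⟩, 0) = d g h := by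
    have a1 := d_mul_gen g gen_a
    have a2 := d_mul_gen h gen_a
    rw [d_comm] at a2
    have b1 := d_triangle g (h * ga) h
    have b2 := d_triangle g (g * ga) h
    have b3 := d_triangle (g * ga) (h * ga) h
    have c1 : (d g h : ℝ) ≤ d g (h * ga) + 1 := by exact_mod_cast (by omega)
    have c2 : (d g h : ℝ) ≤ 1 + d (g * ga) h := by exact_mod_cast (by omega)
    have c3 : (d g h : ℝ) ≤ 1 + d (g * ga) (h * ga) + 1 := by exact_mod_cast (by omega)
    simp only [viaEnds, wordDist_eq, Set.Icc.coe_zero, zero_add, add_zero, sub_zero]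
    rw [min_eq_left c1, min_eq_left (le_min c2 c3)]
  rw [vtx, vtx, dist_pt, edgeDist, v]
  split_ifs with e
  · have : g = h := e.1
    simp [this, d_self]
  · rfl

theorem dist_pt_vtx0 (g : GG) (x : gens) (τ : unitInterval) : dist (pt g x τ) (vtx g) ≤ τ := by
  rw [vtx, dist_pt]
  refine (edgeDist_le_via _ _).trans (((min_le_left _ _).trans (min_le_left _ _)).trans ?_)
  simp [wordDist_eq, d_self]

theorem dist_pt_vtx1 (g : GG) (x : gens) (τ : unitInterval) :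
    dist (pt g x τ) (vtx (g * x)) ≤ 1 - τ := by
  rw [vtx, dist_pt]
  refine (edgeDist_le_via _ _).trans (((min_le_right _ _).trans (min_le_left _ _)).trans ?_)
  simp [wordDist_eq, d_self]

theorem dist_pt_same (g : GG) (x : gens) (τ σ : unitInterval) :
    dist (pt g x τ) (pt g x σ) ≤ |(τ : ℝ) - σ| := by
  rw [dist_pt, edgeDist, if_pos ⟨rfl, rfl⟩]; exact min_le_left _ _

theorem pt_zero (g : GG) (x : gens) : pt g x 0 = vtx g :=
  dist_le_zero.1 (by simpa using dist_pt_vtx0 g x 0)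

theorem pt_one (g : GG) (x : gens) : pt g x 1 = vtx (g * x) :=
  dist_le_zero.1 (by simpa using dist_pt_vtx1 g x 1)

theorem exists_pt (z : XX) : ∃ g x τ, z = pt g x τ := by
  obtain ⟨⟨g, x, τ⟩, rfl⟩ := SeparationQuotient.surjective_mk z
  exact ⟨g, x, τ, rfl⟩

theorem joined_edge {A : Set XX} (g : GG) (x : gens) (τ σ : unitInterval) (h : τ ≤ σ)
    (hA : ∀ ρ : unitInterval, τ ≤ ρ → ρ ≤ σ → pt g x ρ ∈ A) :
    Joined' A (pt g x τ) (pt g x σ) ((σ : ℝ) - τ) := by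
  have h' : (τ : ℝ) ≤ σ := h
  have hm : ∀ t ∈ Icc (0 : ℝ) (σ - τ), (τ : ℝ) + t ∈ Icc (0 : ℝ) 1 := fun t ht =>
    ⟨add_nonneg τ.2.1 ht.1, by linarith [ht.2, σ.2.2]⟩
  refine ⟨by linarith, fun t => pt g x (projIcc 0 1 zero_le_one (τ + t)), by simp, by simp,
    fun t ht => ?_, fun s hs t ht hst => ?_⟩
  · simp only [projIcc_of_mem _ (hm t ht)]
    exact hA _ (show (τ : ℝ) ≤ τ + t by linarith [ht.1]) (show (τ : ℝ) + t ≤ σ by linarith [ht.2])
  · simp only [projIcc_of_mem _ (hm t ht), projIcc_of_mem _ (hm s hs)]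
    refine (dist_pt_same _ _ _ _).trans ?_
    simp only [add_sub_add_left_eq_sub]
    rw [abs_of_nonpos (by linarith)]; linarith

theorem exists_vertex (z : XX) : ∃ g L, L ≤ 1 / 2 ∧
    Joined' {w | dist w (vtx g) ≤ 1 / 2} z (vtx g) L := by
  obtain ⟨g, x, τ, rfl⟩ := exists_pt z
  rcases le_total (τ : ℝ) (1 / 2) with h | h
  · refine ⟨g, (τ : ℝ) - (0 : unitInterval), by simpa using h, ?_⟩
    have := joined_edge (A := {w | dist w (vtx g) ≤ 1 / 2}) g x 0 τ τ.2.1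
      (fun ρ _ h2 => (dist_pt_vtx0 g x ρ).trans (le_trans h2 h))
    rw [pt_zero] at this
    exact this.symm
  · refine ⟨g * x, ((1 : unitInterval) : ℝ) - τ, by simp; linarith, ?_⟩
    have := joined_edge (A := {w | dist w (vtx (g * x)) ≤ 1 / 2}) g x τ 1 τ.2.2
      (fun ρ h1 _ => (dist_pt_vtx1 g x ρ).trans (by
        have : (τ : ℝ) ≤ ρ := h1
        linarith))
    rwa [pt_one] at this

theorem Joined'.start {X : Type} [MetricSpace X] {A : Set X} {x y : X} {L : ℝ}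
    (h : Joined' A x y L) : x ∈ A := by
  obtain ⟨h0, f, h1, _, h3, _⟩ := h
  exact h1 ▸ h3 0 ⟨le_rfl, h0⟩

theorem exists_near (z : XX) : ∃ g, dist z (vtx g) ≤ 1 / 2 := by
  obtain ⟨g, L, _, h⟩ := exists_vertex z
  exact ⟨g, h.start⟩

/-- Points within one half of an admissible vertex. -/
def Near (ok : GG → Prop) : Set XX := {w | ∃ v, ok v ∧ dist w (vtx v) ≤ 1 / 2}

theorem joined_gen {ok : GG → Prop} (g : GG) {x : GG} (hx : IsGen x) (o : ok g) (o' : ok (g * x)) :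
    Joined' (Near ok) (vtx g) (vtx (g * x)) 1 := by
  have := joined_edge (A := Near ok) g ⟨x, mem_gens.2 hx⟩ 0 1 zero_le_one (fun ρ _ _ => by
    rcases le_total (ρ : ℝ) (1 / 2) with h | h
    · exact ⟨g, o, (dist_pt_vtx0 g _ ρ).trans h⟩
    · exact ⟨g * x, o', (dist_pt_vtx1 g ⟨x, mem_gens.2 hx⟩ ρ).trans (by linarith)⟩)
  rw [pt_zero, pt_one] at this
  simpa using this

theorem Conn.joined {ok : GG → Prop} {g h : GG} {n : ℕ} (c : Conn ok g h n) :
    ∃ L : ℝ, L ≤ n ∧ Joined' (Near ok) (vtx g) (vtx h) L := by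
  induction c with
  | refl o => exact ⟨0, by simp, Joined'.refl ⟨_, o, by simp⟩⟩
  | step c e o ih =>
    obtain ⟨L, hL, j⟩ := ih
    rcases e with e | ⟨x, hx, e | e⟩
    · subst e; exact ⟨L, by push_cast; linarith, j⟩
    · subst e; exact ⟨L + 1, by push_cast; linarith, j.trans (joined_gen _ hx c.ok_right o)⟩
    · subst e; exact ⟨L + 1, by push_cast; linarith, j.trans (joined_gen _ hx o c.ok_right).symm⟩

theorem d_near {g h : GG} {x y : XX} (hx : dist x (vtx g) ≤ 1 / 2) (hy : dist y (vtx h) ≤ 1 / 2) :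
    (d g h : ℝ) ≤ dist x y + 1 ∧ dist x y ≤ d g h + 1 := by
  rw [← dist_vtx]
  have a1 := dist_triangle4 (vtx g) x y (vtx h)
  have a2 := dist_triangle4 x (vtx g) (vtx h) y
  rw [dist_comm (vtx g) x] at a1
  rw [dist_comm (vtx h) y] at a2
  constructor <;> linarith

theorem divPoint_le {γ δ : ℝ} (hδ' : δ ≤ 1 / 2) (hγ : 2 ≤ γ) (n : ℕ) (x y c : XX)
    (hxy : dist x y ≤ n) : divPoint XX γ δ x y c ≤ ((2000 * (n + 2) ^ 3 + 1 : ℕ) : ℝ≥0∞) := by
  obtain ⟨x₀, Lx, hLx, jx⟩ := exists_vertex x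
  obtain ⟨y₀, Ly, hLy, jy⟩ := exists_vertex y
  obtain ⟨c₀, hc⟩ := exists_near c
  have hx : dist x (vtx x₀) ≤ 1 / 2 := jx.start
  have hy : dist y (vtx y₀) ≤ 1 / 2 := jy.start
  set r₀ := min (d c₀ x₀) (d c₀ y₀) with hr₀
  have h1 : d x₀ y₀ ≤ n + 1 := by
    have := (d_near hx hy).1
    exact_mod_cast (by linarith : (d x₀ y₀ : ℝ) ≤ n + 1)
  have c1 := (detour (n + 1) r₀ (c₀⁻¹ * x₀) (c₀⁻¹ * y₀)
    (by rw [← d_eq_one_left]; exact min_le_left _ _)
    (by rw [← d_eq_one_left]; exact min_le_right _ _) (by rwa [d_left])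
    (by rw [← d_eq_one_left, ← d_eq_one_left]; omega)).left
      (ok' := fun v => r₀ ≤ 2 * d c₀ v) c₀ (fun v h => by
        have := d_left c₀ 1 v
        rw [mul_one] at this
        unfold Far at h; omega)
  rw [mul_inv_cancel_left, mul_inv_cancel_left] at c1
  obtain ⟨L, hL, j⟩ := c1.joined
  have j' := ((jx.mono (B := Near fun v => r₀ ≤ 2 * d c₀ v)
    (fun w hw => ⟨x₀, c1.ok_left, hw⟩)).trans j).trans
    (jy.mono (B := Near fun v => r₀ ≤ 2 * d c₀ v) (fun w hw => ⟨y₀, c1.ok_right, hw⟩)).symm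
  obtain ⟨p, hp, hl⟩ := j'.path
  have hr : min (dist c x) (dist c y) ≤ r₀ + 1 := by
    have a1 := (d_near hc hx).2
    have a2 := (d_near hc hy).2
    rw [hr₀, Nat.cast_min, ← min_add_add_right]
    exact min_le_min a1 a2
  have hr0 : 0 ≤ min (dist c x) (dist c y) := le_min dist_nonneg dist_nonneg
  refine (iInf₂_le p (fun t ht => ?_)).trans (hl.trans ?_)
  · obtain ⟨v, hv, hw⟩ := hp t
    have a1 := (d_near hc hw).1
    have a2 : (r₀ : ℝ) ≤ 2 * d c₀ v := by exact_mod_cast hv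
    rw [Metric.mem_ball, dist_comm] at ht
    nlinarith
  · rw [← ENNReal.ofReal_natCast]
    apply ENNReal.ofReal_le_ofReal
    push_cast at hL ⊢
    have : ((n : ℝ) + 1 + 1) = n + 2 := by ring
    rw [this] at hL
    linarith

theorem div_upper {γ δ : ℝ} (hδ' : δ ≤ 1 / 2) (hγ : 2 ≤ γ) :
    Dominated (divergence XX γ δ) (fun n => (n : ℝ≥0∞) ^ 3) := by
  refine ⟨2000, fun n => ?_⟩
  refine le_trans (iSup_le fun x => iSup_le fun y => iSup_le fun c => iSup_le fun _ =>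
    iSup_le fun h => divPoint_le hδ' hγ n x y c h) ?_
  have : 2000 * (n + 2) ^ 3 + 1 ≤ 2000 * (2000 * n + 2000) ^ 3 + 2000 * n + 2000 := by
    have : (n + 2) ^ 3 ≤ (2000 * n + 2000) ^ 3 := Nat.pow_le_pow_left (by omega) 3
    omega
  beta_reduce
  exact_mod_cast this

theorem interpolate (v : ℕ → GG) (C : ℕ) (hC : 0 < C) (hv : ∀ i, d (v i) (v (i + 1)) ≤ C) :
    ∃ p : ℕ → GG, (∀ j, Step (p j) (p (j + 1))) ∧ (∀ i, p (C * i) = v i) ∧
      ∀ j, d (v (j / C)) (p j) ≤ C := by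
  choose g g0 g1 gs' using fun i => exists_geodesic (v i) (v (i + 1))
  refine ⟨fun j => g (j / C) (j % C), fun j => ?_, fun i => ?_, fun j => ?_⟩
  · have hm := Nat.mod_lt j hC
    have hj := Nat.div_add_mod j C
    by_cases h : j % C + 1 < C
    · have e1 : (j + 1) / C = j / C := by
        rw [Nat.div_eq_iff hC, mul_comm (j / C) C]; omega
      have e2 : (j + 1) % C = j % C + 1 := by
        have := Nat.div_add_mod (j + 1) C
        rw [e1] at this; omega
      simp only [e1, e2]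
      exact gs' _ _
    · have e0 : j + 1 = C * (j / C + 1) := by rw [mul_add, mul_one]; omega
      have e1 : (j + 1) / C = j / C + 1 := by rw [e0, Nat.mul_div_cancel_left _ hC]
      have e2 : (j + 1) % C = 0 := by rw [e0, Nat.mul_mod_right]
      simp only [e1, e2, g0]
      have := gs' (j / C) (j % C)
      rwa [g1 _ (j % C + 1) (by have := hv (j / C); omega)] at this
  · simp only [Nat.mul_div_cancel_left _ hC, Nat.mul_mod_right, g0]
  · have := d_path (gs' (j / C)) 0 (j % C)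
    rw [g0, zero_add] at this
    exact this.trans (Nat.mod_lt j hC).le

theorem eq_of_near {g h : GG} (e : dist (vtx g) (vtx h) ≤ 1 / 2) : g = h := by
  rw [dist_vtx] at e
  apply d_eq_zero
  have : (d g h : ℝ) < 1 := by linarith
  have : d g h < 1 := by exact_mod_cast this
  omega

theorem d_gs_zpow (i : ℤ) : d 1 (gs ^ i) = i.natAbs := by
  apply le_antisymm
  · simpa using d_zpow_le 1 gen_s i
  · have := lip_of_step (f := EE) (fun g h e => by
      rcases EE_step e with h | h | ⟨h, _⟩ <;> rw [h] <;> simp) 1 (gs ^ i)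
    have a1 : EE (gs ^ i) = i := by simpa using EE_val i 0
    have a2 : EE 1 = 0 := by simpa using EE_val 0 0
    rw [a1, a2, sub_zero, ← Int.natCast_natAbs] at this
    exact_mod_cast this

theorem path_lower (n N : ℕ) (ρ : ℝ) (hN : n + 2 ≤ N) (hρ : 4 * n + 9 ≤ ρ)
    (p : Path (vtx (gs ^ (N : ℤ))) (vtx (gs ^ (-(N : ℤ)))))
    (hp : ∀ t, p t ∉ Metric.ball (vtx 1) ρ) :
    (n : ℝ≥0∞) ^ 3 ≤ 2 * eVariationOn p Set.univ + 4 := by
  by_cases hfin : eVariationOn p Set.univ = ⊤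
  · simp [hfin]
  set ℓ := (eVariationOn p Set.univ).toReal with hℓ
  have hℓ0 : 0 ≤ ℓ := ENNReal.toReal_nonneg
  have hℓe : eVariationOn p Set.univ = ENNReal.ofReal ℓ := (ENNReal.ofReal_toReal hfin).symm
  obtain ⟨z, z0, z1, z2, z3⟩ := exists_chain_path p ⌈ℓ⌉₊ (by
    rw [hℓe, ← ENNReal.ofReal_natCast]; exact ENNReal.ofReal_le_ofReal (Nat.le_ceil ℓ))
  choose v hv using fun i => exists_near (z i)
  have v0 : v 0 = gs ^ (N : ℤ) := (eq_of_near (z0 ▸ hv 0)).symm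
  have v1 : v (⌈ℓ⌉₊ + 1) = gs ^ (-(N : ℤ)) := (eq_of_near (z1 ▸ hv _)).symm
  obtain ⟨q, q1, q2, q3⟩ := interpolate v 2 two_pos (fun i => by
    have := (d_near (hv i) (hv (i + 1))).1
    exact_mod_cast (by linarith [z3 i] : (d (v i) (v (i + 1)) : ℝ) ≤ 2))
  have hc := cubic q1 (2 * (⌈ℓ⌉₊ + 1)) (n + 1)
    (by
      have := q2 0
      rw [mul_zero] at this
      have a1 : EE (gs ^ (N : ℤ)) = N := by simpa using EE_val N 0
      rw [this, v0, a1]; push_cast; omega)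
    (by
      have a1 : EE (gs ^ (-(N : ℤ))) = -N := by simpa using EE_val (-N) 0
      rw [q2, v1, a1]; omega)
    (fun e _ => by
      obtain ⟨t, ht⟩ := z2 (e / 2)
      have a1 := hp t
      rw [← ht, Metric.mem_ball, not_lt] at a1
      have a2 := dist_triangle (z (e / 2)) (vtx (v (e / 2))) (vtx 1)
      rw [dist_vtx, d_comm] at a2
      have a3 := d_triangle 1 (q e) (v (e / 2))
      have a4 := q3 e
      rw [d_comm] at a4
      have a5 : (4 * n + 8 : ℝ) < d 1 (v (e / 2)) := by linarith [hv (e / 2)]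
      have a6 : 4 * n + 8 < d 1 (v (e / 2)) := by exact_mod_cast a5
      omega)
  rw [Nat.add_sub_cancel] at hc
  have h1 : n ^ 3 ≤ 2 * (⌈ℓ⌉₊ + 1) := le_trans (by nlinarith [Nat.zero_le n, Nat.zero_le (n ^ 2)]) hc
  have h2 : ((n : ℝ)) ^ 3 ≤ 2 * ℓ + 4 := by
    have a1 : ((n : ℝ)) ^ 3 ≤ 2 * ((⌈ℓ⌉₊ : ℝ) + 1) := by exact_mod_cast h1
    linarith [Nat.ceil_lt_add_one hℓ0]
  have h3 := ENNReal.ofReal_le_ofReal h2
  rw [ENNReal.ofReal_add (by positivity) (by norm_num), ENNReal.ofReal_mul (by norm_num),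
    ENNReal.ofReal_pow (Nat.cast_nonneg n), ENNReal.ofReal_natCast, ← hℓe] at h3
  simpa using h3

theorem div_lower {γ δ : ℝ} (hδ : 0 < δ) (hγ : 0 ≤ γ) :
    Dominated (fun n => (n : ℝ≥0∞) ^ 3) (divergence XX γ δ) := by
  obtain ⟨K, hK⟩ := exists_nat_ge ((9 + γ) / δ)
  rw [div_le_iff₀ hδ] at hK
  refine ⟨4 * (K + 1), fun n => ?_⟩
  set N := (K + 1) * (n + 2) with hN
  have hN1 : n + 2 ≤ N := Nat.le_mul_of_pos_left _ (by omega)
  have d1 : dist (vtx 1) (vtx (gs ^ (N : ℤ))) = N := by rw [dist_vtx, d_gs_zpow]; simp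
  have d2 : dist (vtx 1) (vtx (gs ^ (-(N : ℤ)))) = N := by rw [dist_vtx, d_gs_zpow]; simp
  have d3 : dist (vtx (gs ^ (N : ℤ))) (vtx (gs ^ (-(N : ℤ)))) ≤
      ((4 * (K + 1) * n + 4 * (K + 1) : ℕ) : ℝ) := by
    have := dist_triangle_left (vtx (gs ^ (N : ℤ))) (vtx (gs ^ (-(N : ℤ)))) (vtx 1)
    rw [d1, d2] at this
    have e : N + N ≤ 4 * (K + 1) * n + 4 * (K + 1) := by rw [hN]; nlinarith [Nat.zero_le (K * n)]
    exact this.trans (by exact_mod_cast e)
  have hpos : 0 < min (dist (vtx 1) (vtx (gs ^ (N : ℤ)))) (dist (vtx 1) (vtx (gs ^ (-(N : ℤ))))) := by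
    rw [d1, d2, min_self]; exact_mod_cast (by omega : 0 < N)
  have h1 : divPoint XX γ δ (vtx (gs ^ (N : ℤ))) (vtx (gs ^ (-(N : ℤ)))) (vtx 1) ≤
      divergence XX γ δ (4 * (K + 1) * n + 4 * (K + 1)) :=
    le_iSup_of_le _ (le_iSup_of_le _ (le_iSup_of_le _ (le_iSup_of_le hpos (le_iSup_of_le d3 le_rfl))))
  have h2 : (n : ℝ≥0∞) ^ 3 ≤
      2 * divPoint XX γ δ (vtx (gs ^ (N : ℤ))) (vtx (gs ^ (-(N : ℤ)))) (vtx 1) + 4 := by
    unfold divPoint
    rw [ENNReal.mul_iInf_of_ne (by norm_num) (by norm_num), ENNReal.iInf_add]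
    refine le_iInf fun p => ?_
    rw [ENNReal.mul_iInf_of_ne (by norm_num) (by norm_num), ENNReal.iInf_add]
    refine le_iInf fun hp => path_lower n N _ hN1 ?_ p hp
    rw [d1, d2, min_self, hN]
    push_cast
    have : (0 : ℝ) ≤ n := Nat.cast_nonneg n
    nlinarith
  refine h2.trans ?_
  have c1 : (2 : ℝ≥0∞) ≤ ((4 * (K + 1) : ℕ) : ℝ≥0∞) := by exact_mod_cast (by omega : 2 ≤ 4 * (K + 1))
  have c2 : (4 : ℝ≥0∞) ≤ ((4 * (K + 1) : ℕ) : ℝ≥0∞) := by exact_mod_cast (by omega : 4 ≤ 4 * (K + 1))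
  exact add_le_add ((mul_le_mul' c1 h1).trans le_self_add) c2

end Pool.Agent.Lib.MP_d59f30_al
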