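import Pool.Agent.Lib.MP_d59f30_al.Core

/-!
Detours of cubic length, and uniformly ascending block paths.
-/

set_option autoImplicit false

namespace Pool.Agent.Lib.MP_d59f30_al

/-- A lazy edge path with `n` steps all of whose vertices satisfy `ok`. -/
inductive Conn (ok : GG → Prop) : GG → GG → ℕ → Prop
  | refl (g : GG) : ok g → Conn ok g g 0
  | step {g h k : GG} {n : ℕ} : Conn ok g h n → Step h k → ok k → Conn ok g k (n + 1)

theorem Conn.ok_right {ok : GG → Prop} {g h : GG} {n : ℕ} (c : Conn ok g h n) : ok h := by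
  cases c <;> assumption

theorem Conn.ok_left {ok : GG → Prop} {g h : GG} {n : ℕ} (c : Conn ok g h n) : ok g := by
  induction c with
  | refl h => exact h
  | step _ _ _ ih => exact ih

theorem Conn.mono {ok : GG → Prop} {g h : GG} {n m : ℕ} (c : Conn ok g h n) (hnm : n ≤ m) :
    Conn ok g h m := by
  induction m, hnm using Nat.le_induction with
  | base => exact c
  | succ m _ ih => exact ih.step (step_refl h) c.ok_right

theorem Conn.trans {ok : GG → Prop} {g h k : GG} {n m : ℕ} (c : Conn ok g h n)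
    (c' : Conn ok h k m) : Conn ok g k (n + m) := by
  induction c' with
  | refl _ => exact c
  | step _ e o ih => exact ih.step e o

theorem Conn.single {ok : GG → Prop} {g h : GG} (e : Step g h) (o : ok g) (o' : ok h) :
    Conn ok g h 1 := (Conn.refl g o).step e o'

theorem Conn.symm {ok : GG → Prop} {g h : GG} {n : ℕ} (c : Conn ok g h n) : Conn ok h g n := by
  induction c with
  | refl o => exact Conn.refl _ o
  | step c e o ih =>
    have := (Conn.single e.symm o c.ok_right).trans ih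
    rwa [add_comm] at this

theorem Conn.left {ok ok' : GG → Prop} {g h : GG} {n : ℕ} (c : Conn ok g h n) (u : GG)
    (hok : ∀ v, ok v → ok' (u * v)) : Conn ok' (u * g) (u * h) n := by
  induction c with
  | refl o => exact Conn.refl _ (hok _ o)
  | step _ e o ih => exact ih.step (e.left u) (hok _ o)

theorem Conn.weaken {ok ok' : GG → Prop} {g h : GG} {n : ℕ} (c : Conn ok g h n)
    (hok : ∀ v, ok v → ok' v) : Conn ok' g h n := by
  simpa using c.left (ok' := ok') 1 (by simpa using hok)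

theorem conn_path {ok : GG → Prop} {p : ℕ → GG} (hp : ∀ j, Step (p j) (p (j + 1))) (n : ℕ)
    (hok : ∀ j, j ≤ n → ok (p j)) : Conn ok (p 0) (p n) n := by
  induction n with
  | zero => exact Conn.refl _ (hok 0 le_rfl)
  | succ n ih => exact (ih (fun j hj => hok j (by omega))).step (hp n) (hok _ le_rfl)

theorem conn_up {ok : GG → Prop} (g : GG) {x : GG} (hx : IsGen x) (i : ℤ) (n : ℕ)
    (hok : ∀ j : ℤ, i ≤ j → j ≤ i + n → ok (g * x ^ j)) :
    Conn ok (g * x ^ i) (g * x ^ (i + n)) n := by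
  have := conn_path (ok := ok) (p := fun j : ℕ => g * x ^ (i + j))
    (fun j => by
      simp only [Nat.cast_succ, ← add_assoc, zpow_add_one, ← mul_assoc]
      exact step_mul _ hx) n (fun j hj => hok _ (by omega) (by omega))
  simpa using this

/-- Far from the identity at scale `M`. -/
def Far (M c : ℕ) (v : GG) : Prop := M ≤ 2 * d 1 v + c

theorem far_of_ht {M c : ℕ} {v : GG} (h : (M : ℤ) ≤ 2 * |ht v| + c) : Far M c v := by
  have := ht_le_d_one v
  unfold Far; omega

theorem conn_ab (g : GG) (M : ℕ) (ε : ℤ) (hε : ε = 1 ∨ ε = -1) (hg : 0 ≤ ε * ht g) :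
    Conn (Far M 0) (g * ga ^ (ε * M)) (g * gb ^ (ε * M)) (2 * M) := by
  have hc : ∀ i j : ℤ, g * ga ^ i * gb ^ j = g * gb ^ j * ga ^ i := fun i j => by
    rw [mul_assoc, mul_assoc, (comm_ab.zpow_zpow i j).eq]
  have key : ∀ i j : ℤ, (M : ℤ) ≤ ε * (i + j) → Far M 0 (g * ga ^ i * gb ^ j) := by
    intro i j h
    apply far_of_ht
    simp only [ht_mul, ht_zpow, ht_ga, ht_gb, mul_one]
    rcases hε with rfl | rfl
    · rw [abs_of_nonneg (by omega)]; omega
    · rw [abs_of_nonpos (by omega)]; omega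
  rcases hε with rfl | rfl
  · have c1 := conn_up (ok := Far M 0) (g * ga ^ (M : ℤ)) gen_b 0 M
      (fun j h1 h2 => key _ _ (by omega))
    have c2 := conn_up (ok := Far M 0) (g * gb ^ (M : ℤ)) gen_a 0 M
      (fun j h1 h2 => by rw [← hc]; exact key _ _ (by omega))
    simp only [zpow_zero, mul_one, zero_add] at c1 c2
    rw [hc] at c1
    simpa [two_mul] using c1.trans c2.symm
  · have c1 := conn_up (ok := Far M 0) (g * ga ^ (-(M : ℤ))) gen_b (-M) M
      (fun j h1 h2 => key _ _ (by omega))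
    have c2 := conn_up (ok := Far M 0) (g * gb ^ (-(M : ℤ))) gen_a (-M) M
      (fun j h1 h2 => by rw [← hc]; exact key _ _ (by omega))
    simp only [neg_add_cancel, zpow_zero, mul_one] at c1 c2
    rw [hc] at c1
    simpa [two_mul] using c1.symm.trans c2

theorem conn_flip (M : ℕ) : Conn (Far M 0) (ga ^ (-(M : ℤ))) (ga ^ (M : ℤ)) (4 * M) := by
  have hc : ∀ i j : ℤ, ga ^ i * gb ^ j = gb ^ j * ga ^ i := fun i j => (comm_ab.zpow_zpow i j).eq
  have k1 : ∀ i j : ℤ, (M : ℤ) ≤ |j| + |i + j| → Far M 0 (ga ^ i * gb ^ j) := by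
    intro i j h
    have h1 := flat_lower i j
    have h2 := ht_le_d_one (ga ^ i * gb ^ j)
    simp only [ht_mul, ht_zpow, ht_ga, ht_gb, mul_one] at h2
    unfold Far; omega
  have c1 := conn_up (ok := Far M 0) (ga ^ (-(M : ℤ))) gen_b 0 M (fun j h1 h2 => k1 _ _ (by
    rw [abs_of_nonneg h1, abs_of_nonpos (by omega)]; omega))
  have c2 := conn_up (ok := Far M 0) (gb ^ (M : ℤ)) gen_a (-M) (2 * M) (fun j h1 h2 => by
    rw [← hc]; exact k1 _ _ (by
      rw [abs_of_nonneg (by omega : (0 : ℤ) ≤ M)]; have := abs_nonneg (j + M); omega))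
  have c3 := conn_up (ok := Far M 0) (ga ^ (M : ℤ)) gen_b 0 M (fun j h1 h2 => k1 _ _ (by
    rw [abs_of_nonneg h1, abs_of_nonneg (by omega)]; omega))
  simp only [zpow_zero, mul_one, zero_add] at c1 c3
  rw [hc] at c1 c3
  rw [show -(M : ℤ) + ((2 * M : ℕ) : ℤ) = M by push_cast; ring] at c2
  have := (c1.trans c2).trans c3.symm
  rwa [show M + 2 * M + M = 4 * M by ring] at this

theorem conn_t_pos (M : ℕ) (j : ℕ) :
    Conn (Far M 0) (gt ^ (j : ℤ) * ga ^ (M : ℤ)) (ga ^ (M : ℤ)) (j * (2 * M + 1)) := by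
  induction j with
  | zero => simpa using Conn.refl _ (far_of_ht (by simp [ht_pow, ht_ga]; omega))
  | succ j ih =>
    have c1 := conn_ab (gt ^ ((j + 1 : ℕ) : ℤ)) M 1 (Or.inl rfl)
      (by rw [ht_zpow, ht_gt]; omega)
    rw [one_mul] at c1
    have e : gt ^ ((j + 1 : ℕ) : ℤ) * gb ^ (M : ℤ) = gt ^ (j : ℤ) * ga ^ (M : ℤ) * gt := by
      rw [mul_assoc, rel_at_zpow, Nat.cast_succ, zpow_add_one, mul_assoc]
    have c2 := c1.step (k := gt ^ (j : ℤ) * ga ^ (M : ℤ)) (by rw [e]; exact (step_mul _ gen_t).symm)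
      ih.ok_left
    have := c2.trans ih
    rwa [show 2 * M + 1 + j * (2 * M + 1) = (j + 1) * (2 * M + 1) by ring] at this

theorem conn_t_neg (M : ℕ) (j : ℕ) :
    Conn (Far M 0) (gt ^ (-(j : ℤ)) * ga ^ (-(M : ℤ))) (ga ^ (-(M : ℤ))) (j * (2 * M + 1)) := by
  induction j with
  | zero => simpa using Conn.refl _ (far_of_ht (by simp [ht_inv, ht_pow, ht_ga]; omega))
  | succ j ih =>
    have c1 := conn_ab (gt ^ (-(j : ℤ))) M (-1) (Or.inr rfl) (by rw [ht_zpow, ht_gt]; omega)
    rw [neg_one_mul] at c1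
    have e : gt ^ (-(j : ℤ)) * gb ^ (-(M : ℤ)) =
        gt ^ (-((j + 1 : ℕ) : ℤ)) * ga ^ (-(M : ℤ)) * gt := by
      rw [mul_assoc, rel_at_zpow, ← mul_assoc, ← zpow_add_one]; congr 2; push_cast; ring
    have o : Far M 0 (gt ^ (-((j + 1 : ℕ) : ℤ)) * ga ^ (-(M : ℤ))) := by
      apply far_of_ht
      simp only [ht_mul, ht_zpow, ht_ga, ht_gt, mul_one]
      rw [abs_of_nonpos (by omega)]; omega
    have c2 := (Conn.single (h := gt ^ (-(j : ℤ)) * gb ^ (-(M : ℤ)))
      (by rw [e]; exact step_mul _ gen_t) o c1.ok_right).trans (c1.symm.trans ih)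
    rwa [show 1 + (2 * M + j * (2 * M + 1)) = (j + 1) * (2 * M + 1) by ring] at c2

/-- Length bound of the local detours. -/
def L0 (M : ℕ) : ℕ := M * (2 * M + 1) + 6 * M

theorem hub (M : ℕ) {y : GG} (hy : y = ga ∨ y = gb ∨ y = gt) (ε : ℤ) (hε : ε = 1 ∨ ε = -1) :
    Conn (Far M 0) (y ^ (ε * M)) (ga ^ (M : ℤ)) (L0 M) := by
  have c0 := conn_flip M
  rcases hy with rfl | rfl | rfl
  · rcases hε with rfl | rfl
    · rw [one_mul]; exact (Conn.refl _ c0.ok_right).mono (Nat.zero_le _)
    · rw [neg_one_mul]; exact c0.mono (by unfold L0; omega)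
  · have c1 := (conn_ab 1 M ε hε (by simp [ht_one])).symm
    rw [one_mul, one_mul] at c1
    rcases hε with rfl | rfl
    · rw [one_mul] at c1 ⊢; exact c1.mono (by unfold L0; omega)
    · rw [neg_one_mul] at c1 ⊢; exact (c1.trans c0).mono (by unfold L0; omega)
  · rcases hε with rfl | rfl
    · rw [one_mul]
      have c1 := conn_up (ok := Far M 0) (gt ^ (M : ℤ)) gen_a 0 M (fun j h1 h2 => by
        apply far_of_ht
        simp only [ht_mul, ht_zpow, ht_ga, ht_gt, mul_one]
        rw [abs_of_nonneg (by omega)]; omega)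
      simp only [zpow_zero, mul_one, zero_add] at c1
      exact (c1.trans (conn_t_pos M M)).mono (by unfold L0; omega)
    · rw [neg_one_mul]
      have c1 := conn_up (ok := Far M 0) (gt ^ (-(M : ℤ))) gen_a (-M) M (fun j h1 h2 => by
        apply far_of_ht
        simp only [ht_mul, ht_zpow, ht_ga, ht_gt, mul_one]
        rw [abs_of_nonpos (by omega)]; omega)
      simp only [neg_add_cancel, zpow_zero, mul_one] at c1
      exact ((c1.symm.trans (conn_t_neg M M)).trans c0).mono (by unfold L0; omega)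

theorem far_shift {M c : ℕ} {u v : GG} (h : Far M c v) : Far M (c + 2 * d 1 u) (u * v) := by
  have h1 := d_triangle u 1 (u * v)
  have h2 := d_left u 1 v
  rw [mul_one] at h2
  rw [d_comm u 1] at h1
  unfold Far at *; omega

theorem far_step {M c : ℕ} {u v : GG} (h : Far M c v) (e : Step v u) : Far M (c + 2) u := by
  have h1 := d_triangle 1 u v
  have h2 := e.symm.d_le
  unfold Far at *; omega

theorem local_move (M : ℕ) {x : GG} (hx : Step 1 x) (ε : ℤ) (hε : ε = 1 ∨ ε = -1) :
    Conn (Far M 2) (x * ga ^ (ε * M)) (ga ^ (M : ℤ)) (2 * L0 M + 1) := by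
  have w : ∀ v, Far M 0 v → Far M 2 v := fun v h => by unfold Far at *; omega
  have A : ∀ y, (y = ga ∨ y = gb ∨ y = gt) → Step (y ^ (ε * M)) (x * ga ^ (ε * M)) →
      Conn (Far M 2) (x * ga ^ (ε * M)) (ga ^ (M : ℤ)) (2 * L0 M + 1) := by
    intro y hy e
    have c := hub M hy ε hε
    exact ((Conn.single e.symm (far_step c.ok_left e) (w _ c.ok_left)).trans (c.weaken w)).mono
      (by omega)
  have B : ∀ y, (y = ga ∨ y = gb ∨ y = gt) → Step (x * y ^ (M : ℤ)) (ga ^ (M : ℤ)) →
      Conn (Far M 2) (x * ga ^ (ε * M)) (ga ^ (M : ℤ)) (2 * L0 M + 1) := by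
    intro y hy e
    have c1 := hub M (Or.inl rfl) ε hε
    have c2 := hub M hy 1 (Or.inl rfl)
    rw [one_mul] at c2
    have c3 := (c1.trans c2.symm).left (ok' := Far M 2) x (fun v h => by
      have h1 := far_shift (u := x) h
      have h2 := hx.d_le
      unfold Far at *; omega)
    exact (c3.step e (w _ c1.ok_right)).mono (by omega)
  have ca : ∀ k : ℤ, ga * ga ^ k = ga ^ k * ga := fun k => ((Commute.refl ga).zpow_right k).eq
  have cb : ∀ k : ℤ, gb * ga ^ k = ga ^ k * gb := fun k => (comm_ab.symm.zpow_right k).eq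
  rcases hx with rfl | ⟨z, hz, e | e⟩
  · exact A ga (Or.inl rfl) (by rw [one_mul]; exact step_refl _)
  · rw [one_mul] at e
    subst e
    rcases hz with rfl | rfl | rfl | rfl
    · exact A ga (Or.inl rfl) (by rw [ca]; exact step_mul _ gen_a)
    · exact A ga (Or.inl rfl) (by rw [cb]; exact step_mul _ gen_b)
    · exact B gb (Or.inr (Or.inl rfl)) (by rw [← rel_at_zpow]; exact (step_mul _ gen_t).symm)
    · exact B gt (Or.inr (Or.inr rfl)) (by rw [← rel_as_zpow]; exact (step_mul _ gen_s).symm)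
  · have ex : x = z⁻¹ := eq_inv_of_mul_eq_one_left e.symm
    subst ex
    rcases hz with rfl | rfl | rfl | rfl
    · refine A ga (Or.inl rfl) ?_
      rw [show ga⁻¹ * ga ^ (ε * M) = ga ^ (ε * M) * ga⁻¹ by group]
      exact step_mul_inv _ gen_a
    · refine A ga (Or.inl rfl) ?_
      rw [show gb⁻¹ * ga ^ (ε * M) = ga ^ (ε * M) * gb⁻¹ by
        rw [inv_mul_eq_iff_eq_mul, ← mul_assoc, cb, mul_inv_cancel_right]]
      exact step_mul_inv _ gen_b
    · refine A gb (Or.inr (Or.inl rfl)) ?_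
      rw [show gt⁻¹ * ga ^ (ε * M) = gb ^ (ε * M) * gt⁻¹ by
        rw [inv_mul_eq_iff_eq_mul, ← mul_assoc, ← rel_at_zpow, mul_inv_cancel_right]]
      exact step_mul_inv _ gen_t
    · refine A gt (Or.inr (Or.inr rfl)) ?_
      rw [show gs⁻¹ * ga ^ (ε * M) = gt ^ (ε * M) * gs⁻¹ by
        rw [inv_mul_eq_iff_eq_mul, ← mul_assoc, ← rel_as_zpow, mul_inv_cancel_right]]
      exact step_mul_inv _ gen_s

theorem step_one {g h : GG} (e : Step g h) : Step 1 (g⁻¹ * h) := by
  simpa using e.left g⁻¹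

theorem to_hub (M : ℕ) (g : GG) (ε : ℤ) (hε : ε = 1 ∨ ε = -1) :
    Conn (Far M (2 * d 1 g + 2)) (g * ga ^ (ε * M)) (ga ^ (M : ℤ))
      (d 1 g * (2 * L0 M + 1) + L0 M) := by
  obtain ⟨p, h0, h1, hp⟩ := exists_geodesic 1 g
  have key : ∀ j : ℕ, ∀ ε : ℤ, (ε = 1 ∨ ε = -1) → Conn (Far M (2 * j + 2)) (p j * ga ^ (ε * M))
      (ga ^ (M : ℤ)) (j * (2 * L0 M + 1) + L0 M) := by
    intro j
    induction j with
    | zero =>
      intro ε hε
      rw [h0, one_mul]
      simpa using (hub M (Or.inl rfl) ε hε).weaken (ok' := Far M 2)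
        (fun v h => by unfold Far at *; omega)
    | succ j ih =>
      intro ε hε
      have dj : d 1 (p j) ≤ j := by simpa [h0] using d_path hp 0 j
      have c1 := (local_move M (step_one (hp j)) ε hε).left (ok' := Far M (2 * (j + 1) + 2)) (p j)
        (fun v h => by
          have h1 := far_shift (u := p j) h
          unfold Far at *; omega)
      rw [← mul_assoc, mul_inv_cancel_left] at c1
      have c2 := (ih 1 (Or.inl rfl)).weaken (ok' := Far M (2 * (j + 1) + 2))
        (fun v h => by unfold Far at *; omega)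
      rw [one_mul] at c2
      exact (c1.trans c2).mono (by ring_nf; omega)
  have := key (d 1 g) ε hε
  rwa [h1 _ le_rfl] at this

theorem good_ray (x : GG) : ∃ ε : ℤ, (ε = 1 ∨ ε = -1) ∧
    ∀ j : ℤ, 0 ≤ ε * j → d 1 x ≤ 2 * d 1 (x * ga ^ j) := by
  by_contra hcon
  push Not at hcon
  obtain ⟨i, hi, h1⟩ := hcon 1 (Or.inl rfl)
  obtain ⟨j, hj, h2⟩ := hcon (-1) (Or.inr rfl)
  have a1 := d_ga_zpow x 0 i
  have a2 := d_ga_zpow x 0 j
  have a3 := d_ga_zpow x j i
  rw [zpow_zero, mul_one, sub_zero] at a1 a2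
  rw [abs_of_nonneg (by omega)] at a1 a3
  rw [abs_of_nonpos (by omega)] at a2
  have b1 := d_triangle 1 (x * ga ^ i) x
  have b2 := d_triangle 1 (x * ga ^ j) x
  have b3 := d_triangle (x * ga ^ j) 1 (x * ga ^ i)
  rw [d_comm (x * ga ^ i) x] at b1
  rw [d_comm (x * ga ^ j) x] at b2
  rw [d_comm (x * ga ^ j) 1] at b3
  omega

theorem to_hub' (n r : ℕ) (x : GG) (hr : r ≤ d 1 x) (hrn : r ≤ n) (hx : d 1 x ≤ 2 * n) :
    Conn (Far r 0) x (ga ^ ((5 * n + 2 : ℕ) : ℤ))
      ((5 * n + 2) + (2 * n * (2 * L0 (5 * n + 2) + 1) + L0 (5 * n + 2))) := by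
  set M := 5 * n + 2 with hM
  obtain ⟨ε, hε, hray⟩ := good_ray x
  have c1 : Conn (Far r 0) x (x * ga ^ (ε * M)) M := by
    rcases hε with rfl | rfl
    · have := conn_up (ok := Far r 0) x gen_a 0 M (fun j h1 _ => by
        have := hray j (by omega); unfold Far; omega)
      simpa using this
    · have := conn_up (ok := Far r 0) x gen_a (-M) M (fun j _ h2 => by
        have := hray j (by omega); unfold Far; omega)
      simpa using this.symm
  have c2 := (to_hub M x ε hε).weaken (ok' := Far r 0) (fun v h => by unfold Far at *; omega)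
  exact c1.trans (c2.mono (by gcongr))

theorem detour (n r : ℕ) (x y : GG) (hx : r ≤ d 1 x) (hy : r ≤ d 1 y) (hxy : d x y ≤ n)
    (hr : d 1 x = r ∨ d 1 y = r) : Conn (Far r 0) x y (2000 * (n + 1) ^ 3) := by
  by_cases hrn : r ≤ n
  · have t1 := d_triangle 1 x y
    have t2 := d_triangle 1 y x
    rw [d_comm y x] at t2
    have c1 := to_hub' n r x hx hrn (by omega)
    have c2 := to_hub' n r y hy hrn (by omega)
    refine (c1.trans c2.symm).mono ?_
    unfold L0
    nlinarith [Nat.zero_le n, Nat.zero_le (n ^ 2), Nat.zero_le (n ^ 3)]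
  · obtain ⟨p, h0, h1, hp⟩ := exists_geodesic x y
    have c := conn_path (ok := Far r 0) hp (d x y) (fun j hj => by
      have a1 := d_path_le hp (lo := 0) (hi := j) (i := 0) (j := j) le_rfl (by omega) (by omega) le_rfl
      have a2 := d_path_le hp (lo := j) (hi := d x y) (i := d x y) (j := j) hj le_rfl le_rfl hj
      rw [h0] at a1
      rw [h1 _ le_rfl] at a2
      have b1 := d_triangle 1 (p j) x
      have b2 := d_triangle 1 (p j) y
      rw [d_comm (p j)] at b1 b2
      unfold Far; omega)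
    rw [h0, h1 _ le_rfl] at c
    refine c.mono (hxy.trans ?_)
    nlinarith [Nat.zero_le n, Nat.zero_le (n ^ 2), Nat.zero_le (n ^ 3)]

/-- One block of an ascending path. -/
def Blk (g h : GG) : Prop := d g h ≤ 3 ∧ ht g + 1 ≤ ht h

/-- An ascending block path with `n` blocks. -/
def Asc (g h : GG) (n : ℕ) : Prop :=
  ∃ p : ℕ → GG, p 0 = g ∧ p n = h ∧ ∀ j, j < n → Blk (p j) (p (j + 1))

theorem Asc.refl (g : GG) : Asc g g 0 := ⟨fun _ => g, rfl, rfl, fun _ h => absurd h (by omega)⟩

theorem Asc.trans {g h k : GG} {n m : ℕ} (c : Asc g h n) (c' : Asc h k m) : Asc g k (n + m) := by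
  obtain ⟨p, p0, p1, hp⟩ := c
  obtain ⟨q, q0, q1, hq⟩ := c'
  refine ⟨fun j => if j ≤ n then p j else q (j - n), by simp [p0], ?_, fun j hj => ?_⟩
  · rcases Nat.eq_zero_or_pos m with rfl | hm
    · simp [p1, ← q1, q0]
    · simp only [if_neg (show ¬ n + m ≤ n by omega), Nat.add_sub_cancel_left, q1]
  · by_cases h1 : j + 1 ≤ n
    · simp only [if_pos h1, if_pos (show j ≤ n by omega)]
      exact hp j h1
    · have e : (if j ≤ n then p j else q (j - n)) = q (j - n) := by
        split_ifs with h2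
        · rw [show j = n by omega, p1, Nat.sub_self, q0]
        · rfl
      simp only [if_neg h1, e]
      rw [show j + 1 - n = j - n + 1 by omega]
      exact hq _ (by omega)

theorem Asc.single {g h : GG} (b : Blk g h) : Asc g h 1 :=
  ⟨fun j => if j = 0 then g else h, rfl, rfl, fun j hj => by
    obtain rfl : j = 0 := by omega
    exact b⟩

theorem blk_of (g x y z : GG) (hx : Step 1 x) (hy : Step 1 y) (hz : Step 1 z)
    (h : 1 ≤ ht x + ht y + ht z) : Blk g (g * (x * y * z)) := by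
  refine ⟨?_, by simp only [ht_mul]; omega⟩
  have a1 := (hx.left g).d_le
  have a2 := (hy.left (g * x)).d_le
  have a3 := (hz.left (g * x * y)).d_le
  rw [mul_one] at a1 a2 a3
  have b1 := d_triangle g (g * x) (g * x * y)
  have b2 := d_triangle g (g * x * y) (g * x * y * z)
  simp only [← mul_assoc]
  omega

theorem step1 {x : GG} (hx : IsGen x) : Step 1 x := by simpa using step_mul 1 hx
theorem step1' {x : GG} (hx : IsGen x) : Step 1 x⁻¹ := by simpa using step_mul_inv 1 hx

theorem asc_stage (M : ℕ) (g : GG) : Asc (g * ga ^ M) (g * gb ^ (2 * M)) M := by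
  induction M generalizing g with
  | zero => simpa using Asc.refl g
  | succ M ih =>
    have b := blk_of (g * ga ^ (M + 1)) ga⁻¹ gb gb (step1' gen_a) (step1 gen_b) (step1 gen_b)
      (by simp [ht_inv, ht_ga, ht_gb])
    have e : g * ga ^ (M + 1) * (ga⁻¹ * gb * gb) = g * gb * gb * ga ^ M := by
      have := (comm_ab.pow_left M).eq
      rw [pow_succ]
      simp only [mul_assoc, mul_inv_cancel_left]
      rw [← mul_assoc (ga ^ M), this, mul_assoc, this]
    rw [e] at b
    have := (Asc.single b).trans (ih (g * gb * gb))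
    rwa [show g * gb * gb * gb ^ (2 * M) = g * gb ^ (2 * (M + 1)) by
      rw [mul_add, pow_add, pow_mul_comm]; simp [pow_two, mul_assoc], add_comm 1 M] at this

theorem asc_spiral (j : ℕ) (g : GG) : ∀ M : ℕ, ∃ M' i : ℕ, Asc (g * gt ^ j * ga ^ M) (g * ga ^ M') i := by
  induction j with
  | zero => intro M; exact ⟨M, 0, by simpa using Asc.refl _⟩
  | succ j ih =>
    intro M
    obtain ⟨M', i, h⟩ := ih (2 * M + 2)
    have b := blk_of (g * gt ^ (j + 1) * gb ^ (2 * M)) gt⁻¹ ga ga (step1' gen_t) (step1 gen_a)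
      (step1 gen_a) (by simp [ht_inv, ht_ga, ht_gt])
    have e : g * gt ^ (j + 1) * gb ^ (2 * M) * (gt⁻¹ * ga * ga) = g * gt ^ j * ga ^ (2 * M + 2) := by
      have := rel_at_zpow ((2 * M : ℕ) : ℤ)
      rw [zpow_natCast, zpow_natCast] at this
      rw [pow_succ gt, mul_assoc g, mul_assoc (gt ^ j), ← this, pow_add, pow_two]
      simp only [mul_assoc, mul_inv_cancel_left]
    rw [e] at b
    exact ⟨M', _, ((asc_stage M _).trans (Asc.single b)).trans h⟩

theorem Asc.ht_le {g h : GG} {n : ℕ} (c : Asc g h n) : ht g + n ≤ ht h := by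
  obtain ⟨p, p0, p1, hp⟩ := c
  have : ∀ j, j ≤ n → ht g + j ≤ ht (p j) := by
    intro j
    induction j with
    | zero => intro _; simp [p0]
    | succ j ih =>
      intro hj
      have := ih (by omega)
      have := (hp j hj).2
      push_cast; omega
  simpa [p1] using this n le_rfl

/-- The redirecting block path: it follows `g s⁻¹ a^i` up to time `r`, ascends, and finally follows
`g a^i` ahead of schedule. -/
theorem redirect_path (g : GG) (r : ℕ) : ∃ (P : ℕ → GG) (T c : ℕ), 0 < c ∧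
    (∀ j, Blk (P j) (P (j + 1))) ∧ (∀ j, j ≤ r → P j = g * gs⁻¹ * ga ^ j) ∧
    ∀ j, T ≤ j → P j = g * ga ^ (j + c) := by
  obtain ⟨M', i, h⟩ := asc_spiral r g 1
  have b1 := blk_of (g * gs⁻¹ * ga ^ r) gs ga 1 (step1 gen_s) (step1 gen_a) (step_refl 1)
    (by simp [ht_ga, ht_gs, ht_one])
  have e : g * gs⁻¹ * ga ^ r * (gs * ga * 1) = g * gt ^ r * ga ^ 1 := by
    have := rel_as_zpow (r : ℤ)
    rw [zpow_natCast, zpow_natCast] at this
    simp only [mul_one, pow_one, ← mul_assoc]
    rw [mul_assoc _ (ga ^ r), this]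
    simp only [mul_assoc, inv_mul_cancel_left]
  rw [e] at b1
  have c := (Asc.single b1).trans h
  have hh := c.ht_le
  simp only [ht_mul, ht_inv, ht_pow, ht_ga, ht_gs] at hh
  obtain ⟨q, q0, q1, hq⟩ := c
  have ba : ∀ (u : GG) (k : ℕ), Blk (u * ga ^ k) (u * ga ^ (k + 1)) := fun u k => by
    have := blk_of (u * ga ^ k) ga 1 1 (step1 gen_a) (step_refl 1) (step_refl 1)
      (by simp [ht_ga, ht_one])
    simpa [pow_succ, mul_assoc] using this
  have bb : Blk (g * ga ^ M') (g * ga ^ (M' + 2)) := by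
    have := blk_of (g * ga ^ M') ga ga 1 (step1 gen_a) (step1 gen_a) (step_refl 1)
      (by simp [ht_ga, ht_one])
    simpa [pow_succ, mul_assoc] using this
  refine ⟨fun j => if j ≤ r then g * gs⁻¹ * ga ^ j else if j ≤ r + (1 + i) then q (j - r)
      else g * ga ^ (j + (M' + 1 - (r + (1 + i)))), r + (1 + i) + 1, M' + 1 - (r + (1 + i)),
    by omega, fun j => ?_, fun j hj => if_pos hj, fun j hj => ?_⟩
  · by_cases h1 : j + 1 ≤ r
    · simp only [if_pos h1, if_pos (show j ≤ r by omega)]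
      exact ba _ j
    · by_cases h2 : j + 1 ≤ r + (1 + i)
      · have e : (if j ≤ r then g * gs⁻¹ * ga ^ j else if j ≤ r + (1 + i) then q (j - r)
            else g * ga ^ (j + (M' + 1 - (r + (1 + i))))) = q (j - r) := by
          split_ifs with h3 h4
          · rw [show j = r by omega, Nat.sub_self, q0]
          · rfl
          · omega
        simp only [if_neg h1, if_pos h2, e]
        rw [show j + 1 - r = j - r + 1 by omega]
        exact hq _ (by omega)
      · simp only [if_neg h1, if_neg h2, if_neg (show ¬ j ≤ r by omega)]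
        by_cases h3 : j ≤ r + (1 + i)
        · rw [if_pos h3, show j - r = 1 + i by omega, q1,
            show j + 1 + (M' + 1 - (r + (1 + i))) = M' + 2 by omega]
          exact bb
        · rw [if_neg h3, show j + 1 + (M' + 1 - (r + (1 + i))) =
            j + (M' + 1 - (r + (1 + i))) + 1 by omega]
          exact ba _ _
  · simp only [if_neg (show ¬ j ≤ r by omega), if_neg (show ¬ j ≤ r + (1 + i) by omega)]

end Pool.Agent.Lib.MP_d59f30_al
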