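import Pool.Agent.Lib.MP_d59f30_al.Model

/-!
Wall-counting functions and the projection to the vertex group generated by `a, b, t`.
-/

set_option autoImplicit false

namespace Pool.Agent.Lib.MP_d59f30_al

open SemidirectProduct Multiplicative Classical

theorem zpow_inv_of {K : Type} (f : FF → K) (Q : FF → Prop)
    (hQ : ∀ w, ∀ v ∈ Subgroup.zpowers xB, Q w → Q (w * v))
    (hf : ∀ w, Q w → f (w * xB) = f w) (k : ℤ) (w : FF) (hw : Q w) : f (w * xB ^ k) = f w := by
  refine inv_of_closure {xB} f Q ?_ ?_ _ ?_ w hw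
  · rwa [← Subgroup.zpowers_eq_closure]
  · rintro w hw x rfl; exact hf w hw
  · rw [← Subgroup.zpowers_eq_closure]; exact Subgroup.zpow_mem_zpowers _ _

/-- Signed number of `t`-walls along the `t`-axis. -/
theorem exists_D : ∃ D : GG → ℤ, (∀ g, D (g * ga) = D g) ∧ (∀ g, D (g * gb) = D g) ∧
    (∀ g, D (g * gt) = D g ∨ (D (g * gt) = D g + 1 ∧ ∃ p : ℤ, g = gt ^ (D g) * ga ^ p)) ∧
    (∀ i p : ℤ, D (gt ^ i * ga ^ p) = i) := by
  obtain ⟨f, f1, hf⟩ := exists_cocycle_int (α := Fin 3)
    (fun w z => if z = 1 ∧ ∃ i : ℤ, w = (gt ^ i).left then 1 else 0)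
  have hB : ∀ w, f (w * xB) = f w := fun w => by simp [xB, hf]
  have hBk : ∀ (k : ℤ) w, f (w * xB ^ k) = f w := fun k w =>
    zpow_inv_of f (fun _ => True) (fun _ _ _ _ => trivial) (fun w _ => hB w) k w trivial
  have hT : ∀ g : GG, f (g * gt).left = f g.left +
      if ∃ i : ℤ, g.left = (gt ^ i).left then 1 else 0 := by
    intro g
    rw [left_mul_gt, hBk, xT, hf]; simp
  have hpow : ∀ i : ℤ, f (gt ^ i).left = i := by
    intro i
    induction i with
    | zero => simpa using f1
    | succ i ih => rw [zpow_add_one, hT, if_pos ⟨_, rfl⟩, ih]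
    | pred i ih =>
      have := hT (gt ^ (-(i : ℤ) - 1))
      rw [← zpow_add_one, if_pos ⟨_, rfl⟩, sub_add_cancel, ih] at this
      omega
  refine ⟨fun g => f g.left, fun g => by simp only [left_mul_ga],
    fun g => by simp only [left_mul_gb, hB],
    fun g => ?_, fun i p => by simp only [left_mul_ga_zpow, hpow]⟩
  beta_reduce
  by_cases h : ∃ i : ℤ, g.left = (gt ^ i).left
  · right
    refine ⟨by rw [hT, if_pos h], ?_⟩
    obtain ⟨i, hi⟩ := h
    refine ⟨ht g - ht (gt ^ i), ?_⟩
    simp only [hi, hpow]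
    exact eq_of_left_eq hi
  · left
    rw [hT, if_neg h, add_zero]

/-- Signed number of `s`-walls along the `s`-axis. -/
theorem exists_E : ∃ E : GG → ℤ, (∀ g, E (g * ga) = E g) ∧ (∀ g, E (g * gb) = E g) ∧
    (∀ g, E (g * gt) = E g) ∧
    (∀ g, E (g * gs) = E g ∨ (E (g * gs) = E g + 1 ∧ ∃ p : ℤ, g = gs ^ (E g) * ga ^ p)) ∧
    (∀ i p : ℤ, E (gs ^ i * ga ^ p) = i) := by
  obtain ⟨f, f1, hf⟩ := exists_cocycle_int (α := Fin 3)
    (fun w z => if z = 2 ∧ ∃ i : ℤ, w = (gs ^ i).left then 1 else 0)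
  have hH : ∀ v ∈ HH, ∀ w, f (w * v) = f w := fun v hv w =>
    inv_of_closure {xB, xT} f (fun _ => True) (fun _ _ _ _ => trivial)
      (by rintro w _ x (rfl | rfl) <;> simp [xB, xT, hf]) v hv w trivial
  have hS : ∀ g : GG, f (g * gs).left = f g.left +
      if ∃ i : ℤ, g.left = (gs ^ i).left then 1 else 0 := by
    intro g
    obtain ⟨u, hu, e⟩ := left_mul_gs g
    rw [e, hH u hu, xS, hf]; simp
  have hpow : ∀ i : ℤ, f (gs ^ i).left = i := by
    intro i
    induction i with
    | zero => simpa using f1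
    | succ i ih => rw [zpow_add_one, hS, if_pos ⟨_, rfl⟩, ih]
    | pred i ih =>
      have := hS (gs ^ (-(i : ℤ) - 1))
      rw [← zpow_add_one, if_pos ⟨_, rfl⟩, sub_add_cancel, ih] at this
      omega
  refine ⟨fun g => f g.left, fun g => by simp only [left_mul_ga],
    fun g => by simp only [left_mul_gb, hH _ B_mem],
    fun g => by simp only [left_mul_gt, hH _ (zpow_mem B_mem _), hH _ T_mem],
    fun g => ?_, fun i p => by simp only [left_mul_ga_zpow, hpow]⟩
  beta_reduce
  by_cases h : ∃ i : ℤ, g.left = (gs ^ i).left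
  · right
    refine ⟨by rw [hS, if_pos h], ?_⟩
    obtain ⟨i, hi⟩ := h
    refine ⟨ht g - ht (gs ^ i), ?_⟩
    simp only [hi, hpow]
    exact eq_of_left_eq hi
  · left
    rw [hS, if_neg h, add_zero]

theorem left_ab (p q : ℤ) : (ga ^ p * gb ^ q).left = xB ^ q := by
  induction q with
  | zero => simpa using left_mul_ga_zpow 1 p
  | succ i ih => rw [zpow_add_one, ← mul_assoc, left_mul_gb, ih, zpow_add_one]
  | pred i ih =>
    have := left_mul_gb (ga ^ p * gb ^ (-(i : ℤ) - 1))
    rw [mul_assoc, ← zpow_add_one, sub_add_cancel, ih] at this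
    rw [zpow_sub_one xB, this]; simp

/-- The `b`-coordinate of the projection to the flat spanned by `a` and `b`. -/
theorem exists_kappa : ∃ κ : GG → ℤ, (∀ g, |κ (g * ga) - κ g| ≤ 1) ∧
    (∀ g, |κ (g * gb) - κ g| ≤ 1) ∧ (∀ g, |κ (g * gt) - κ g| ≤ 1) ∧
    (∀ p q : ℤ, κ (ga ^ p * gb ^ q) = q) := by
  set Z := Subgroup.zpowers xB with hZ
  obtain ⟨j, j1, hj⟩ := exists_cocycle_int (α := Fin 3)
    (fun w z => if z = 0 ∧ w ∈ Z then 1 else 0)
  obtain ⟨y, y1, hy⟩ := exists_cocycle_int (α := Fin 3)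
    (fun w z => if z = 1 then (if w ∈ Z then 1 else 0) + (if w * xT ∈ Z then 1 else 0) else 0)
  have hyB : ∀ w, y (w * xB) = y w := fun w => by simp [xB, hy]
  have hyBk : ∀ (k : ℤ) w, y (w * xB ^ k) = y w := fun k w =>
    zpow_inv_of y (fun _ => True) (fun _ _ _ _ => trivial) (fun w _ => hyB w) k w trivial
  have hyT : ∀ w, y (w * xT) = y w + ((if w ∈ Z then 1 else 0) + (if w * xT ∈ Z then 1 else 0)) :=
    fun w => by rw [xT, hy]; simp [xT]
  have hjB : ∀ w, j (w * xB) = j w + if w ∈ Z then 1 else 0 := fun w => by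
    have := hj w 0
    show j (w * FreeGroup.of 0) = _
    simpa using this
  have hjT : ∀ w, j (w * xT) = j w := fun w => by rw [xT, hj]; simp
  have hjBk : ∀ (k : ℤ) w, w ∉ Z → j (w * xB ^ k) = j w := fun k w hw =>
    zpow_inv_of j (fun w => w ∉ Z)
      (fun w v hv hw h => hw (by simpa using mul_mem h (inv_mem hv)))
      (fun w hw => by rw [hjB, if_neg hw, add_zero]) k w hw
  have hjpow : ∀ i : ℤ, j (xB ^ i) = i := by
    intro i
    induction i with
    | zero => simpa using j1
    | succ i ih => rw [zpow_add_one, hjB, if_pos (Subgroup.zpow_mem_zpowers _ _), ih]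
    | pred i ih =>
      have := hjB (xB ^ (-(i : ℤ) - 1))
      rw [← zpow_add_one, if_pos (Subgroup.zpow_mem_zpowers _ _), sub_add_cancel, ih] at this
      omega
  have hypow : ∀ i : ℤ, y (xB ^ i) = 0 := fun i => by
    have := hyBk i 1
    rwa [one_mul, y1] at this
  refine ⟨fun g => j g.left + if y g.left < 0 then ht g else 0, fun g => ?_, fun g => ?_,
    fun g => ?_, fun p q => ?_⟩
  · simp only [left_mul_ga, ht_mul, ht_ga]
    split_ifs <;> simp
  · simp only [left_mul_gb, ht_mul, ht_gb, hyB, hjB]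
    by_cases h : g.left ∈ Z
    · obtain ⟨k, hk⟩ := h
      have hk' : g.left = xB ^ k := hk.symm
      have hm : g.left ∈ Z := ⟨k, hk⟩
      rw [if_pos hm, hk', hypow]; simp
    · rw [if_neg h]; split_ifs <;> simp
  · simp only [left_mul_gt, ht_mul, ht_gt, hyBk, hyT]
    by_cases h : g.left ∈ Z
    · have h' := mul_T_not_mem h
      rw [hjBk _ _ h', hjT, if_pos h, if_neg h']
      obtain ⟨k, hk⟩ := h
      have hk' : g.left = xB ^ k := hk.symm
      rw [hk', hypow]; simp
    · by_cases h' : g.left * xT ∈ Z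
      · have e1 := hyT g.left
        rw [if_neg h, if_pos h'] at e1 ⊢
        have e2 := hjT g.left
        obtain ⟨k, hk⟩ := h'
        have hk' : g.left * xT = xB ^ k := hk.symm
        rw [hk', hypow] at e1
        rw [hk', hjpow] at e2
        rw [hk', ← zpow_add, hjpow, ← e2, if_neg (by omega), if_pos (by omega)]
        simp
      · rw [hjBk _ _ h', hjT, if_neg h, if_neg h']
        simp only [add_zero]
        split_ifs <;> simp
  · simp only [left_ab, hjpow, hypow]; simp

theorem rigid {q n p : ℤ} (h : ga ^ q * gt ^ n = gt * ga ^ p) : q = 0 := by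
  have hT : ∀ g : GG, expo 1 (g * gt).left = expo 1 g.left * ofAdd 1 := fun g => by
    rw [left_mul_gt, map_mul, map_mul, expoT_B, expoT_T, mul_one]
  have hn : ∀ n : ℤ, toAdd (expo 1 (ga ^ q * gt ^ n).left) = n := by
    intro n
    induction n with
    | zero => have := left_mul_ga_zpow 1 q; simp at this; simp [this]
    | succ i ih => rw [zpow_add_one, ← mul_assoc, hT, toAdd_mul, ih]; simp
    | pred i ih =>
      have := hT (ga ^ q * gt ^ (-(i : ℤ) - 1))
      rw [mul_assoc, ← zpow_add_one, sub_add_cancel] at this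
      rw [this, toAdd_mul] at ih
      simp only [toAdd_ofAdd] at ih
      omega
  have h1 := hn n
  have hl : gt.left = xT := by have := left_mul_gt 1; simpa [ht_one] using this
  rw [h, left_mul_ga_zpow, hl, expoT_T] at h1
  have hn1 : n = 1 := by simpa using h1.symm
  subst hn1
  have h2 := congrArg SemidirectProduct.left h
  rw [zpow_one, left_mul_gt, left_mul_ga_zpow, hl, ht_zpow, ht_ga, mul_one] at h2
  have h3 : (ga ^ q).left = 1 := by simpa using left_mul_ga_zpow 1 q
  rw [h3, one_mul] at h2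
  apply B_zpow_inj
  simpa using h2

/-- Membership in the vertex group generated by `a, b, t`. -/
def InN (g : GG) : Prop := g.left ∈ HH

theorem InN_ga (g : GG) : InN (g * ga) ↔ InN g := by rw [InN, left_mul_ga]; rfl

theorem InN_gb (g : GG) : InN (g * gb) ↔ InN g := by
  rw [InN, left_mul_gb]; exact HH.mul_mem_cancel_right B_mem

theorem InN_gt (g : GG) : InN (g * gt) ↔ InN g := by
  rw [InN, left_mul_gt, HH.mul_mem_cancel_right (zpow_mem B_mem _)]
  exact HH.mul_mem_cancel_right T_mem

theorem InN_gs (g : GG) : InN (g * gs) ↔ g.left * xS ∈ HH := by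
  obtain ⟨u, hu, e⟩ := left_mul_gs g
  rw [InN, e]; exact HH.mul_mem_cancel_right hu

theorem InN_one : InN 1 := one_mem HH

theorem InN_ga_zpow (k : ℤ) : InN (ga ^ k) := by
  have : (ga ^ k).left = 1 := by simpa using left_mul_ga_zpow 1 k
  rw [InN, this]; exact one_mem _

/-- The horizontal projection to the vertex group.  Outside the vertex group the pair
`(P g, c g)` names the line through which the component of `g` is attached. -/
theorem exists_proj : ∃ (π : GG → GG) (P : GG → GG) (c : GG → Bool),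
    (∀ g, InN g → π g = g) ∧
    (∀ g, ¬ InN g → π g = P g * (if c g then ga else gt) ^ ht g) ∧
    (∀ g x, (x = ga ∨ x = gb ∨ x = gt ∨ x = gs) → ¬ InN g → ¬ InN (g * x) →
      P (g * x) = P g ∧ c (g * x) = c g) ∧
    (∀ g, InN g → ¬ InN (g * gs) ∧ π (g * gs) = g ∧ c (g * gs) = true) ∧
    (∀ g, InN (g * gs) → π g = g * gs ∧ c g = false) := by
  obtain ⟨r, r1, hr⟩ := exists_cocycle (α := Fin 3) (K := FF)
    (fun w z => if w ∈ HH ∧ z ≠ 2 then FreeGroup.of z else 1)
  obtain ⟨y, y1, hy⟩ := exists_cocycle_int (α := Fin 3)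
    (fun w z => if z = 2 then (if w ∈ HH then 1 else 0) + (if w * xS ∈ HH then 1 else 0) else 0)
  have hyH : ∀ v ∈ HH, ∀ w, y (w * v) = y w := fun v hv w =>
    inv_of_closure {xB, xT} y (fun _ => True) (fun _ _ _ _ => trivial)
      (by rintro w _ x (rfl | rfl) <;> simp [xB, xT, hy]) v hv w trivial
  have hy0 : ∀ v ∈ HH, y v = 0 := fun v hv => by
    have := hyH v hv 1
    rwa [one_mul, y1] at this
  have hyS : ∀ w, y (w * xS) = y w + ((if w ∈ HH then 1 else 0) + (if w * xS ∈ HH then 1 else 0)) :=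
    fun w => by rw [xS, hy]; simp [xS]
  have hrS : ∀ w, r (w * xS) = r w := fun w => by rw [xS, hr]; simp
  have hrH : ∀ v ∈ HH, ∀ w, w ∉ HH → r (w * v) = r w := fun v hv w hw =>
    inv_of_closure {xB, xT} r (fun w => w ∉ HH)
      (fun w v hv hw h => hw ((HH.mul_mem_cancel_right hv).1 h))
      (by rintro w hw x (rfl | rfl) <;> simp [xB, xT, hr, hw]) v hv w hw
  have hrid : ∀ v ∈ HH, r v = v := by
    intro v hv
    have := inv_of_closure {xB, xT} (fun w => r w * w⁻¹) (fun w => w ∈ HH)
      (fun w v hv hw => mul_mem hw hv)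
      (by rintro w hw x (rfl | rfl) <;> simp [xB, xT, hr, hw]) v hv 1 (one_mem _)
    simp only [one_mul, r1, inv_one, mul_one] at this
    exact mul_inv_eq_one.1 this
  refine ⟨fun g => if InN g then g else inl (r g.left) * (if 0 < y g.left then ga else gt) ^ ht g,
    fun g => inl (r g.left), fun g => decide (0 < y g.left), fun g hg => if_pos hg,
    fun g hg => by simp [hg], ?_, ?_, ?_⟩
  · rintro g x (rfl | rfl | rfl | rfl) h1 h2
    · simp only [left_mul_ga, and_self]
    · simp only [left_mul_gb, hrH _ B_mem _ h1, hyH _ B_mem, and_self]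
    · simp only [left_mul_gt, mul_assoc, hrH _ (mul_mem T_mem (zpow_mem B_mem _)) _ h1,
        hyH _ (mul_mem T_mem (zpow_mem B_mem _)), and_self]
    · rw [InN_gs] at h2
      obtain ⟨u, hu, e⟩ := left_mul_gs g
      have h1' : g.left ∉ HH := h1
      simp only [e, hrH u hu _ h2, hrS, hyH u hu, hyS, if_neg h1', if_neg h2, add_zero, and_self]
  · intro g hg
    have h2 : g.left * xS ∉ HH := mul_S_not_mem hg
    have h3 : ¬ InN (g * gs) := by rwa [InN_gs]
    have hg' : g.left ∈ HH := hg
    obtain ⟨u, hu, e⟩ := left_mul_gs g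
    have hy1 : y (g * gs).left = 1 := by
      rw [e, hyH u hu, hyS, if_pos hg', if_neg h2, hy0 _ hg']; rfl
    refine ⟨h3, ?_, by simp only [hy1]; rfl⟩
    simp only [if_neg h3, hy1]
    rw [e, hrH u hu _ h2, hrS, hrid _ hg', if_pos (by norm_num), ht_mul, ht_gs, add_zero]
    exact (eq_inl_mul g).symm
  · intro g hg
    have h2 : g.left * xS ∈ HH := (InN_gs g).1 hg
    have h1 : ¬ InN g := fun h => mul_S_not_mem h h2
    have h1' : g.left ∉ HH := h1
    have hy1 : y g.left = -1 := by
      have := hyS g.left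
      rw [hy0 _ h2, if_neg h1', if_pos h2] at this
      omega
    refine ⟨?_, by simp [hy1]⟩
    simp only [if_neg h1, hy1]
    rw [← hrS, hrid _ h2, if_neg (by norm_num), map_mul, mul_assoc]
    conv_rhs => rw [eq_inl_mul g, mul_assoc, rel_as_zpow]
    rfl

end Pool.Agent.Lib.MP_d59f30_al
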