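import Pool.Agent.Lib.MP_d59f30_al.Walls
import Pool.Agent.Lib.MP_d59f30_al.Defs

/-!
The word metric of the group: basic facts, Lipschitz functions, lazy edge paths.
-/

set_option autoImplicit false

namespace Pool.Agent.Lib.MP_d59f30_al

open Classical

/-- The generating set. -/
noncomputable def gens : Finset GG := {ga, gb, gt, gs}

theorem coe_gens : (gens : Set GG) = {ga, gb, gt, gs} := by simp [gens]

theorem gens_top : Subgroup.closure (gens : Set GG) = ⊤ := by rw [coe_gens, closure_gens]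

/-- Being one of the four generators. -/
def IsGen (x : GG) : Prop := x = ga ∨ x = gb ∨ x = gt ∨ x = gs

theorem mem_gens {x : GG} : x ∈ gens ↔ IsGen x := by simp [gens, IsGen]

theorem gen_a : IsGen ga := Or.inl rfl
theorem gen_b : IsGen gb := Or.inr (Or.inl rfl)
theorem gen_t : IsGen gt := Or.inr (Or.inr (Or.inl rfl))
theorem gen_s : IsGen gs := Or.inr (Or.inr (Or.inr rfl))

/-- The Cayley graph. -/
abbrev Γ : SimpleGraph GG := SimpleGraph.mulCayley (gens : Set GG)

/-- The word metric with natural values. -/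
noncomputable def d (g h : GG) : ℕ := Γ.dist g h

theorem Γ_conn : Γ.Connected := cayley_connected gens_top

theorem wordDist_eq (g h : GG) : wordDist gens g h = d g h := rfl

theorem d_self (g : GG) : d g g = 0 := SimpleGraph.dist_self
theorem d_comm (g h : GG) : d g h = d h g := SimpleGraph.dist_comm
theorem d_triangle (g h k : GG) : d g k ≤ d g h + d h k := Γ_conn.dist_triangle
theorem d_eq_zero {g h : GG} (e : d g h = 0) : g = h := Γ_conn.dist_eq_zero_iff.1 e

theorem d_left_le (u g h : GG) : d (u * g) (u * h) ≤ d g h := by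
  obtain ⟨w, hw⟩ := Γ_conn.exists_walk_length_eq_dist g h
  let φ : Γ →g Γ := ⟨fun x => u * x, fun e => SimpleGraph.mulCayley_adj_mul_iff_right.2 e⟩
  have := SimpleGraph.dist_le (w.map φ)
  rwa [SimpleGraph.Walk.length_map, hw] at this

theorem d_left (u g h : GG) : d (u * g) (u * h) = d g h :=
  le_antisymm (d_left_le u g h) (by simpa using d_left_le u⁻¹ (u * g) (u * h))

theorem d_eq_one_left (g h : GG) : d g h = d 1 (g⁻¹ * h) := by
  rw [← d_left g⁻¹ g h, inv_mul_cancel]

/-- One step of a lazy edge path. -/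
def Step (g h : GG) : Prop := h = g ∨ ∃ x, IsGen x ∧ (h = g * x ∨ g = h * x)

theorem Step.symm {g h : GG} (e : Step g h) : Step h g := by
  rcases e with e | ⟨x, hx, e⟩
  · exact Or.inl e.symm
  · exact Or.inr ⟨x, hx, e.symm⟩

theorem step_refl (g : GG) : Step g g := Or.inl rfl

theorem step_mul (g : GG) {x : GG} (hx : IsGen x) : Step g (g * x) := Or.inr ⟨x, hx, Or.inl rfl⟩

theorem step_mul_inv (g : GG) {x : GG} (hx : IsGen x) : Step g (g * x⁻¹) :=
  Or.inr ⟨x, hx, Or.inr (by simp)⟩

theorem Step.left {g h : GG} (e : Step g h) (u : GG) : Step (u * g) (u * h) := by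
  rcases e with e | ⟨x, hx, e | e⟩
  · exact Or.inl (by rw [e])
  · exact Or.inr ⟨x, hx, Or.inl (by rw [e, mul_assoc])⟩
  · exact Or.inr ⟨x, hx, Or.inr (by rw [e, mul_assoc])⟩

theorem d_mul_gen (g : GG) {x : GG} (hx : IsGen x) : d g (g * x) ≤ 1 := by
  have := wordDist_edge gens g ⟨x, mem_gens.2 hx⟩
  rw [wordDist_eq] at this
  exact_mod_cast this

theorem Step.d_le {g h : GG} (e : Step g h) : d g h ≤ 1 := by
  rcases e with e | ⟨x, hx, e | e⟩
  · rw [e, d_self]; exact zero_le_one
  · rw [e]; exact d_mul_gen g hx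
  · rw [d_comm, e]; exact d_mul_gen h hx

theorem step_of_adj {g h : GG} (e : Γ.Adj g h) : Step g h := by
  obtain ⟨_, x, hx, e⟩ := (SimpleGraph.mulCayley_adj' _ _ _).1 e
  exact Or.inr ⟨x, mem_gens.1 hx, e.imp Eq.symm id⟩

/-- Geodesics as lazy paths that are constant after their length. -/
theorem exists_geodesic (g h : GG) : ∃ p : ℕ → GG, p 0 = g ∧ (∀ j, d g h ≤ j → p j = h) ∧
    ∀ j, Step (p j) (p (j + 1)) := by
  obtain ⟨w, hw⟩ := Γ_conn.exists_walk_length_eq_dist g h
  refine ⟨w.getVert, w.getVert_zero, fun j hj => w.getVert_of_length_le (by rw [hw]; exact hj),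
    fun j => ?_⟩
  by_cases hj : j < w.length
  · exact step_of_adj (w.adj_getVert_succ hj)
  · rw [w.getVert_of_length_le (by omega), w.getVert_of_length_le (by omega)]
    exact step_refl _

theorem d_path {p : ℕ → GG} (hp : ∀ j, Step (p j) (p (j + 1))) (i k : ℕ) :
    d (p i) (p (i + k)) ≤ k := by
  induction k with
  | zero => rw [add_zero, d_self]
  | succ k ih =>
    have := d_triangle (p i) (p (i + k)) (p (i + k + 1))
    have := (hp (i + k)).d_le
    rw [← add_assoc]; omega

theorem d_path_le {p : ℕ → GG} (hp : ∀ j, Step (p j) (p (j + 1))) {lo hi i j : ℕ}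
    (h1 : lo ≤ i) (h2 : i ≤ hi) (h3 : lo ≤ j) (h4 : j ≤ hi) : d (p i) (p j) ≤ hi - lo := by
  rcases le_total i j with h | h
  · obtain ⟨k, rfl⟩ := Nat.exists_eq_add_of_le h
    have := d_path hp i k; omega
  · obtain ⟨k, rfl⟩ := Nat.exists_eq_add_of_le h
    have := d_path hp j k; rw [d_comm]; omega

theorem lip_step {f : GG → ℤ} (hf : ∀ g x, IsGen x → |f (g * x) - f g| ≤ 1) {g h : GG}
    (e : Step g h) : |f h - f g| ≤ 1 := by
  rcases e with e | ⟨x, hx, e | e⟩
  · rw [e]; simp
  · rw [e]; exact hf g x hx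
  · rw [e, abs_sub_comm]; exact hf h x hx

theorem lip_of_step {f : GG → ℤ} (hf : ∀ g h, Step g h → |f h - f g| ≤ 1) (g h : GG) :
    |f h - f g| ≤ d g h := by
  obtain ⟨p, h0, h1, hp⟩ := exists_geodesic g h
  have : ∀ k : ℕ, |f (p k) - f g| ≤ k := by
    intro k
    induction k with
    | zero => rw [h0]; simp
    | succ k ih =>
      have := hf _ _ (hp k)
      have := abs_sub_le (f (p (k + 1))) (f (p k)) (f g)
      push_cast; linarith
  have h2 := this (d g h)
  rwa [h1 _ le_rfl] at h2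

theorem map_lip {π : GG → GG} (hπ : ∀ g h, Step g h → Step (π g) (π h)) (g h : GG) :
    d (π g) (π h) ≤ d g h := by
  obtain ⟨p, h0, h1, hp⟩ := exists_geodesic g h
  have := d_path (p := fun j => π (p j)) (fun j => hπ _ _ (hp j)) 0 (d g h)
  simpa [h0, h1] using this

theorem ht_le_d (g h : GG) : |ht h - ht g| ≤ d g h := by
  refine lip_of_step (fun g h e => lip_step ?_ e) g h
  rintro g x (rfl | rfl | rfl | rfl) <;> simp [ht_mul, ht_ga, ht_gb, ht_gt, ht_gs]

theorem ht_le_d_one (g : GG) : |ht g| ≤ d 1 g := by simpa [ht_one] using ht_le_d 1 g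

theorem d_pow_le (g : GG) {x : GG} (hx : IsGen x) (k : ℕ) : d g (g * x ^ k) ≤ k := by
  have := d_path (p := fun j => g * x ^ j)
    (fun j => by simpa [pow_succ, ← mul_assoc] using step_mul (g * x ^ j) hx) 0 k
  simpa using this

theorem d_zpow_le (g : GG) {x : GG} (hx : IsGen x) (k : ℤ) : d g (g * x ^ k) ≤ k.natAbs := by
  obtain ⟨n, rfl | rfl⟩ := Int.eq_nat_or_neg k
  · simpa using d_pow_le g hx n
  · have := d_pow_le (g * x ^ (-(n : ℤ))) hx n
    rw [d_comm]
    simpa using this

theorem d_ga_zpow (g : GG) (i j : ℤ) : (d (g * ga ^ i) (g * ga ^ j) : ℤ) = |j - i| := by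
  apply le_antisymm
  · have := d_zpow_le (g * ga ^ i) gen_a (j - i)
    rw [mul_assoc, ← zpow_add, add_sub_cancel] at this
    rw [← Int.natCast_natAbs]; exact_mod_cast this
  · have := ht_le_d (g * ga ^ i) (g * ga ^ j)
    simpa [ht_mul, ht_zpow, ht_ga] using this

end Pool.Agent.Lib.MP_d59f30_al
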